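import Pool.Agent.Work.MP_831107_lc.Level

/-!
# MP_831107_lc : classification of the sets of the model up to surjections

`X ≤* Y` holds in the model iff `mu X ≤ mu Y` and `lam X ≤ lam Y` (for non-empty `X`).
-/

namespace Pool.Agent.WFZ

open Cardinal

open SetStr (mem isAtom)

namespace V

/-- Surjections do not raise the two invariants. -/
theorem le_of_surj {X Y : V} (h : ∃ f, IsSurj f Y X) : mu X ≤ mu Y ∧ lam X ≤ lam Y := by
  obtain ⟨k, F, hF, hs⟩ := surj_eqvt h
  constructor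
  · refine mk_le_of_surjective (f := fun y : {y : V // mem y Y} =>
      (⟨F y.1, (hF k le_rfl).maps _ y.2⟩ : {x : V // mem x X})) ?_
    rintro ⟨x, hx⟩
    obtain ⟨y, hy, rfl⟩ := hs x hx
    exact ⟨⟨y, hy⟩, rfl⟩
  · obtain ⟨J, hJ⟩ := exists_cnt_eq X
    obtain ⟨J', hJ'⟩ := exists_cnt_eq Y
    have key : ∀ j, k < j → cnt X j ≤ cnt Y j := by
      intro j hj
      have hsel : ∀ x : {x : V // mem x X ∧ j ≤ lev x}, ∃ y, mem y Y ∧ F y = x.1 :=
        fun x => hs x.1 x.2.1
      choose G hG using hsel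
      have hlev : ∀ x : {x : V // mem x X ∧ j ≤ lev x}, j ≤ lev (G x) := by
        intro x
        by_contra hlt
        push Not at hlt
        have h1 : Fixed (j - 1) (G x) := (τ_fix_iff _ _).2 (by omega)
        have h2 := (hF (j - 1) (by omega)).comm _ (hG x).1
        rw [show sgk (j - 1) (G x) = G x from h1, (hG x).2] at h2
        have h3 : lev x.1 ≤ j - 1 := (τ_fix_iff _ _).1 h2.symm
        have := x.2.2
        omega
      refine mk_le_of_injective (f := fun x => (⟨G x, (hG x).1, hlev x⟩ :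
        {y : V // mem y Y ∧ j ≤ lev y})) ?_
      intro x x' hxx
      have h1 : G x = G x' := congrArg Subtype.val hxx
      apply Subtype.ext
      rw [← (hG x).2, ← (hG x').2, h1]
    let j := max (max J J') (k + 1)
    have h1 : J ≤ j := (le_max_left _ _).trans (le_max_left _ _)
    have h2 : J' ≤ j := (le_max_right _ _).trans (le_max_left _ _)
    have h3 : k < j := lt_of_lt_of_le (Nat.lt_succ_self k) (le_max_right _ _)
    rw [← hJ j h1, ← hJ' j h2]
    exact key j h3

/-- The set of cycles of `sgk k` inside `X`. -/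
def Cyc (k : ℕ) (X : V) : Type 1 :=
  {q : Quotient (Equiv.Perm.SameCycle.setoid (sgk k : Equiv.Perm V)) //
    ∃ x, mem x X ∧ Quotient.mk _ x = q}

/-- A representative of a cycle. -/
noncomputable def rep {k : ℕ} {X : V} (o : Cyc k X) : V := o.2.choose

theorem rep_mem {k : ℕ} {X : V} (o : Cyc k X) : mem (rep o) X := o.2.choose_spec.1

theorem rep_eq {k : ℕ} {X : V} (o : Cyc k X) :
    Quotient.mk (Equiv.Perm.SameCycle.setoid (sgk k : Equiv.Perm V)) (rep o) = o.1 :=
  o.2.choose_spec.2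

/-- The cycle of an element. -/
noncomputable def cyc (k : ℕ) {X : V} (x : V) (hx : mem x X) : Cyc k X := ⟨Quotient.mk _ x, x, hx, rfl⟩

theorem rep_injective {k : ℕ} {X : V} : Function.Injective (rep (k := k) (X := X)) := by
  intro o o' h
  apply Subtype.ext
  rw [← rep_eq o, ← rep_eq o', h]

theorem exists_zpow_rep {k : ℕ} {X : V} (x : V) (hx : mem x X) :
    ∃ i : ℤ, ((sgk k : Equiv.Perm V) ^ i) (rep (cyc k x hx)) = x := by
  have := rep_eq (cyc k x hx)
  exact Quotient.exact this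

theorem cyc_eq_of_zpow {k : ℕ} {X : V} (o : Cyc k X) (i : ℤ) (x : V) (hx : mem x X)
    (h : ((sgk k : Equiv.Perm V) ^ i) (rep o) = x) : cyc k x hx = o := by
  apply Subtype.ext
  rw [← rep_eq o]
  symm
  exact Quotient.sound (s := Equiv.Perm.SameCycle.setoid (sgk k : Equiv.Perm V)) ⟨i, h⟩

theorem lev_rep_cyc {k : ℕ} {X : V} (x : V) (hx : mem x X) :
    lev (rep (cyc k x hx)) = lev x := by
  obtain ⟨i, hi⟩ := exists_zpow_rep (k := k) x hx
  have := lev_τ_zpow k i (rep (cyc k x hx))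
  rw [hi] at this
  exact this.symm

theorem cyc_fibre_finite {k : ℕ} {X : V} (P : V → Prop) (o : Cyc k X) :
    ((fun x : {x : V // mem x X ∧ P x} => cyc k x.1 x.2.1) ⁻¹' {o}).Finite := by
  -- all members of the fibre are `(sgk k)^n (rep o)` with `n < 2^(lev (rep o))`
  have hsub : (Subtype.val '' ((fun x : {x : V // mem x X ∧ P x} => cyc k x.1 x.2.1) ⁻¹' {o})) ⊆
      Set.range (fun n : Fin (2 ^ lev (rep o)) => ((sgk k : Equiv.Perm V) ^ (n : ℤ)) (rep o)) := by
    rintro _ ⟨⟨x, hx, hP⟩, hxo, rfl⟩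
    have hxo' : cyc k x hx = o := hxo
    obtain ⟨i, hi⟩ := exists_zpow_rep (k := k) x hx
    rw [hxo'] at hi
    have hpos : (0 : ℤ) < 2 ^ lev (rep o) := by positivity
    have h0 : (0 : ℤ) ≤ i % 2 ^ lev (rep o) := Int.emod_nonneg _ hpos.ne'
    have h1 : i % 2 ^ lev (rep o) < 2 ^ lev (rep o) := Int.emod_lt_of_pos _ hpos
    refine ⟨⟨(i % 2 ^ lev (rep o)).toNat, ?_⟩, ?_⟩
    · have : ((i % 2 ^ lev (rep o)).toNat : ℤ) < ((2 ^ lev (rep o) : ℕ) : ℤ) := by
        rw [Int.toNat_of_nonneg h0]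
        push_cast
        exact h1
      exact_mod_cast this
    · show ((sgk k : Equiv.Perm V) ^ (((i % 2 ^ lev (rep o)).toNat : ℕ) : ℤ)) (rep o) = x
      rw [Int.toNat_of_nonneg h0, ← hi, τ_zpow, τ_zpow]
      have : (2 : ℤ) ^ lev (rep o) ∣ 2 ^ k * (i - i % 2 ^ lev (rep o)) :=
        Dvd.dvd.mul_left (Int.dvd_self_sub_emod) _
      rw [← zpow_fix', mul_sub, zpow_sub] at this
      have h2 := congrArg (sgP ^ ((2 : ℤ) ^ k * (i % 2 ^ lev (rep o)))) this
      rw [← Equiv.Perm.mul_apply] at h2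
      rw [← h2]
      congr 1
      rw [← zpow_neg, ← zpow_add, ← zpow_add]
      congr 1
      ring
  exact Set.Finite.of_finite_image ((Set.finite_range _).subset hsub)
    Subtype.val_injective.injOn

/-- The two invariants decide the existence of surjections. -/
theorem surj_of_le {X Y : V} (hX : ∃ x, mem x X) (h1 : mu X ≤ mu Y) (h2 : lam X ≤ lam Y) :
    ∃ f, IsSurj f Y X := by
  classical
  obtain ⟨x0, hx0⟩ := hX
  obtain ⟨kX, hkX⟩ := exists_fixed X
  obtain ⟨kY, hkY⟩ := exists_fixed Y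
  obtain ⟨JX, hJX⟩ := exists_cnt_eq X
  obtain ⟨JY, hJY⟩ := exists_cnt_eq Y
  obtain ⟨k, hk1, hk2, hk3, hk4, hk5⟩ : ∃ k, kX ≤ k ∧ kY ≤ k ∧ JX ≤ k ∧ JY ≤ k ∧ lev x0 ≤ k :=
    ⟨kX + kY + JX + JY + lev x0, by omega, by omega, by omega, by omega, by omega⟩
  have hfX : Fixed k X := hkX.mono hk1
  have hfY : Fixed k Y := hkY.mono hk2
  have hfx0 : sgk k x0 = x0 := (τ_fix_iff k x0).2 hk5
  have hcX : ∀ j, cnt X (k + j) = lam X := fun j => hJX _ (by omega)
  have hcY : ∀ j, cnt Y (k + j) = lam Y := fun j => hJY _ (by omega)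
  let a : Cyc k X → ℕ := fun o => lev (rep o) - k
  let b : Cyc k Y → ℕ := fun q => lev (rep q) - k
  -- counting cycles of positive excess level
  have hup : ∀ (Z : V) (j : ℕ), 1 ≤ j → #{o : Cyc k Z // j ≤ lev (rep o) - k} ≤ cnt Z (k + j) := by
    intro Z j hj
    refine mk_le_of_injective (f := fun o => (⟨rep o.1, rep_mem o.1, by have := o.2; omega⟩ :
      {x : V // mem x Z ∧ k + j ≤ lev x})) ?_
    intro o o' hoo
    have h3 : rep o.1 = rep o'.1 := congrArg Subtype.val hoo
    exact Subtype.ext (rep_injective h3)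
  have hdown : ∀ (Z : V) (j : ℕ), ℵ₀ ≤ cnt Z (k + j) →
      cnt Z (k + j) ≤ #{o : Cyc k Z // j ≤ lev (rep o) - k} := by
    intro Z j hinf
    refine mk_le_of_finite_fibres (A := {x : V // mem x Z ∧ k + j ≤ lev x})
      (fun x => (⟨cyc k x.1 x.2.1, by
        have h3 := lev_rep_cyc (k := k) x.1 x.2.1
        have h4 := x.2.2
        omega⟩ : {o : Cyc k Z // j ≤ lev (rep o) - k})) ?_ hinf
    intro o
    refine (cyc_fibre_finite (k := k) (fun x => k + j ≤ lev x) o.1).subset ?_
    intro x hx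
    exact congrArg Subtype.val hx
  have hA : (∀ o, a o = 0) ∨ ℵ₀ ≤ #{o : Cyc k X // 1 ≤ a o} := by
    rcases lam_zero_or X with h0 | h0
    · left
      intro o
      by_contra hne
      have h3 := hup X 1 le_rfl
      rw [hcX 1, h0, nonpos_iff_eq_zero, mk_eq_zero_iff] at h3
      exact h3.elim ⟨o, Nat.one_le_iff_ne_zero.2 hne⟩
    · right
      have h3 := hdown X 1 (by rw [hcX 1]; exact h0)
      rw [hcX 1] at h3
      exact h0.trans h3
  have hB : #(Cyc k X) ≤ #(Cyc k Y) := by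
    have h3 : #(Cyc k X) ≤ mu X :=
      mk_le_of_injective (f := fun o => (⟨rep o, rep_mem o⟩ : {x : V // mem x X}))
        (fun o o' hoo => rep_injective (congrArg Subtype.val hoo))
    refine h3.trans (h1.trans ?_)
    by_cases hinf : ℵ₀ ≤ mu Y
    · refine mk_le_of_finite_fibres (A := {x : V // mem x Y})
        (fun x => cyc k x.1 x.2) ?_ hinf
      intro o
      have h4 := cyc_fibre_finite (k := k) (fun _ => True) o
      have h5 := h4.image (fun x : {x : V // mem x Y ∧ True} =>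
        (⟨x.1, x.2.1⟩ : {x : V // mem x Y}))
      refine h5.subset ?_
      intro x hx
      exact ⟨⟨x.1, x.2, trivial⟩, hx, rfl⟩
    · have hlamY : lam Y = 0 := by
        rcases lam_zero_or Y with h0 | h0
        · exact h0
        · exact absurd (h0.trans (lam_le_mu Y)) hinf
      have hfix : ∀ y, mem y Y → sgk k y = y := by
        intro y hy
        rw [show (sgk k y = y) = Fixed k y from rfl, τ_fix_iff]
        by_contra hlt
        have h4 := hcY 1
        rw [hlamY, cnt, mk_eq_zero_iff] at h4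
        exact h4.elim ⟨y, hy, by omega⟩
      refine mk_le_of_injective (f := fun x : {x : V // mem x Y} => cyc k x.1 x.2) ?_
      intro x x' hxx
      obtain ⟨i, hi⟩ := exists_zpow_rep (k := k) x.1 x.2
      obtain ⟨i', hi'⟩ := exists_zpow_rep (k := k) x'.1 x'.2
      have hr : ∀ (o : Cyc k Y) (i : ℤ), ((sgk k : Equiv.Perm V) ^ i) (rep o) = rep o := by
        intro o i
        exact Function.IsFixedPt.perm_zpow (e := (sgk k : Equiv.Perm V))
          (hfix _ (rep_mem o)) i
      rw [hr] at hi hi'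
      have hxx' : cyc k x.1 x.2 = cyc k x'.1 x'.2 := hxx
      apply Subtype.ext
      rw [← hi, ← hi', hxx']
  have hC : ∀ j, #{o : Cyc k X // 1 ≤ a o} ≤ #{q : Cyc k Y // j ≤ b q} := by
    intro j
    rcases lam_zero_or X with h0 | h0
    · have h3 := hup X 1 le_rfl
      rw [hcX 1, h0] at h3
      exact h3.trans zero_le
    · calc #{o : Cyc k X // 1 ≤ a o} ≤ cnt X (k + 1) := hup X 1 le_rfl
        _ = lam X := hcX 1
        _ ≤ lam Y := h2
        _ = cnt Y (k + j) := (hcY j).symm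
        _ ≤ #{q : Cyc k Y // j ≤ b q} := hdown Y j (by rw [hcY j]; exact h0.trans h2)
  obtain ⟨φ, hφ, hφa⟩ := exists_matching a b hB hC hA
  have hlev : ∀ o, lev (rep o) ≤ max (lev (rep (φ o))) k := by
    intro o
    have h3 := hφa o
    simp only [a, b] at h3
    rcases le_or_gt (lev (rep o)) k with h4 | h4
    · exact h4.trans (le_max_right _ _)
    · refine le_trans ?_ (le_max_left _ _)
      omega
  -- the map
  let P : V → Cyc k X × ℤ → Prop := fun y oi =>
    ((sgk k : Equiv.Perm V) ^ oi.2) (rep (φ oi.1)) = y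
  let F : V → V := fun y => if h : ∃ oi, P y oi then
    ((sgk k : Equiv.Perm V) ^ h.choose.2) (rep h.choose.1) else x0
  have hF : ∀ (o : Cyc k X) (i : ℤ) (y : V), P y (o, i) →
      F y = ((sgk k : Equiv.Perm V) ^ i) (rep o) := by
    intro o i y hP
    have hex : ∃ oi, P y oi := ⟨_, hP⟩
    have hFy : F y = ((sgk k : Equiv.Perm V) ^ hex.choose.2) (rep hex.choose.1) := by
      simp only [F]
      rw [dif_pos hex]
    have hsp : P y hex.choose := hex.choose_spec
    generalize hex.choose = c at hFy hsp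
    obtain ⟨o', i'⟩ := c
    simp only [P] at hP hsp
    have hy : mem y Y := by
      rw [← hP]
      exact mem_τ_zpow hfY i (rep_mem _)
    have h3 := cyc_eq_of_zpow (φ o) i y hy hP
    have h4 := cyc_eq_of_zpow (φ o') i' y hy hsp
    have h5 : o = o' := hφ (h3.symm.trans h4)
    subst h5
    rw [hFy]
    exact τ_zpow_transfer (hlev o) (hsp.trans hP.symm)
  have hF0 : ∀ y, (¬ ∃ oi, P y oi) → F y = x0 := by
    intro y hy
    simp only [F]
    rw [dif_neg hy]
  refine surj_iff.2 ⟨k, F, ⟨hfY, hfX, ?_, ?_⟩, ?_⟩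
  · intro y hy
    by_cases hex : ∃ oi, P y oi
    · obtain ⟨⟨o, i⟩, hP⟩ := hex
      rw [hF o i y hP]
      exact mem_τ_zpow hfX i (rep_mem _)
    · rw [hF0 y hex]
      exact hx0
  · intro y hy
    by_cases hex : ∃ oi, P y oi
    · obtain ⟨⟨o, i⟩, hP⟩ := hex
      have hP' : P (sgk k y) (o, 1 + i) := by
        simp only [P] at hP ⊢
        rw [zpow_add, zpow_one, Equiv.Perm.mul_apply, hP]
      rw [hF o i y hP, hF o (1 + i) _ hP', zpow_add, zpow_one, Equiv.Perm.mul_apply]
    · have hex' : ¬ ∃ oi, P (sgk k y) oi := by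
        rintro ⟨⟨o, i⟩, hP⟩
        refine hex ⟨(o, -1 + i), ?_⟩
        simp only [P] at hP ⊢
        rw [zpow_add, zpow_neg_one, Equiv.Perm.mul_apply, hP]
        exact (sgk k).symm_apply_apply y
      rw [hF0 y hex, hF0 _ hex', hfx0]
  · intro x hx
    obtain ⟨i, hi⟩ := exists_zpow_rep (k := k) x hx
    refine ⟨((sgk k : Equiv.Perm V) ^ i) (rep (φ (cyc k x hx))),
      mem_τ_zpow hfY i (rep_mem _), ?_⟩
    rw [hF (cyc k x hx) i _ rfl, hi]

/-- The classification. -/
theorem leStar_iff {X Y : V} (hX : ∃ x, mem x X) :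
    LeStar X Y ↔ mu X ≤ mu Y ∧ lam X ≤ lam Y := by
  constructor
  · rintro (h | h)
    · obtain ⟨x, hx⟩ := hX
      exact absurd hx (h x)
    · exact le_of_surj h
  · rintro ⟨h1, h2⟩
    exact Or.inr (surj_of_le hX h1 h2)

end V

end Pool.Agent.WFZ
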