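import Mathlib

/-!
Two injection lemmas for labelled types of arbitrary cardinality.
-/

namespace Pool.Agent.WFZ

open Cardinal

universe u

/-- If all the sets `{q | j ≤ b q}` have at least as many elements as `ι`, there is an
injection `e : ι → B` with `lab i ≤ b (e i)` for all `i`. -/
theorem exists_labelled_injection {ι B : Type u} (lab : ι → ℕ) (b : B → ℕ)
    (h : ∀ j, #ι ≤ #{q : B // j ≤ b q}) :
    ∃ e : ι → B, Function.Injective e ∧ ∀ i, lab i ≤ b (e i) := by
  classical
  rcases isEmpty_or_nonempty ι with hι | ⟨⟨i0⟩⟩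
  · exact ⟨fun i => hι.elim i, fun i => hι.elim i, fun i => hι.elim i⟩
  have hB : Nonempty B := by
    have h0 : (#{q : B // 0 ≤ b q}) ≠ 0 := by
      intro h0
      have := h 0
      rw [h0, nonpos_iff_eq_zero, mk_eq_zero_iff] at this
      exact this.elim i0
    rw [mk_ne_zero_iff] at h0
    exact ⟨h0.some.1⟩
  obtain ⟨r, wo, hr⟩ := Cardinal.exists_ord_eq ι
  have hseg : ∀ x : ι, #{y // r y x} < #ι := fun x => card_typein_lt x hr
  have key : ∀ (x : ι) (prev : ∀ y, r y x → B),
      ∃ q, lab x ≤ b q ∧ ∀ y (hy : r y x), prev y hy ≠ q := by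
    intro x prev
    by_contra hcon
    push Not at hcon
    have : #{q : B // lab x ≤ b q} ≤ #{y // r y x} := by
      choose y hy hyq using fun q : {q : B // lab x ≤ b q} => hcon q.1 q.2
      refine mk_le_of_injective (f := fun q => ⟨y q, hy q⟩) ?_
      intro q q' hqq
      have h1 : y q = y q' := congrArg Subtype.val hqq
      apply Subtype.ext
      rw [← hyq q, ← hyq q']
      congr 1
    exact absurd (lt_of_le_of_lt ((h (lab x)).trans this) (hseg x)) (lt_irrefl _)
  choose F hF using key
  let e : ι → B := wo.wf.fix F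
  have he : ∀ x, e x = F x (fun y _ => e y) := fun x => wo.wf.fix_eq F x
  have hne : ∀ x y, r y x → e y ≠ e x := by
    intro x y hy
    rw [he x]
    exact (hF x (fun y _ => e y)).2 y hy
  refine ⟨e, ?_, fun i => ?_⟩
  · intro x y hxy
    rcases trichotomous_of r x y with h1 | h1 | h1
    · exact absurd hxy (hne y x h1)
    · exact h1
    · exact absurd hxy.symm (hne x y h1)
  · rw [he i]
    exact (hF i _).1

/-- The matching lemma. -/
theorem exists_matching {A B : Type u} (a : A → ℕ) (b : B → ℕ) (h1 : #A ≤ #B)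
    (h2 : ∀ j, #{o : A // 1 ≤ a o} ≤ #{q : B // j ≤ b q})
    (h3 : (∀ o, a o = 0) ∨ ℵ₀ ≤ #{o : A // 1 ≤ a o}) :
    ∃ φ : A → B, Function.Injective φ ∧ ∀ o, a o ≤ b (φ o) := by
  classical
  rcases h3 with h3 | h3
  · obtain ⟨φ⟩ := h1
    exact ⟨φ, φ.injective, fun o => by rw [h3 o]; exact Nat.zero_le _⟩
  · let A1 : Type u := {o : A // 1 ≤ a o}
    have hsum : #(A1 ⊕ A1) = #A1 := by
      rw [mk_sum]
      simp only [lift_id]
      exact add_eq_self h3
    obtain ⟨e, he, hle⟩ := exists_labelled_injection (ι := A1 ⊕ A1) (B := B)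
      (fun s => s.elim (fun o => a o.1) (fun o => a o.1)) b (fun j => by
        rw [hsum]
        exact h2 j)
    let R : Set B := Set.range (fun o : A1 => e (Sum.inl o))
    have hR : #R ≤ #A1 := mk_range_le
    have hRc : #A1 ≤ #(Rᶜ : Set B) := by
      refine mk_le_of_injective (f := fun o : A1 => ⟨e (Sum.inr o), ?_⟩) ?_
      · rintro ⟨o', ho'⟩
        have := he ho'
        simp at this
      · intro o o' hoo
        have h := congrArg Subtype.val hoo
        have := he h
        simpa using this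
    have htot : #B = #R + #(Rᶜ : Set B) := (mk_sum_compl R).symm
    have hinf : ℵ₀ ≤ #(Rᶜ : Set B) := h3.trans hRc
    have hBle : #B ≤ #(Rᶜ : Set B) := by
      rw [htot]
      calc #R + #(Rᶜ : Set B) ≤ #(Rᶜ : Set B) + #(Rᶜ : Set B) :=
            add_le_add (hR.trans hRc) le_rfl
        _ = #(Rᶜ : Set B) := add_eq_self hinf
    have hA0 : #{o : A // ¬ 1 ≤ a o} ≤ #(Rᶜ : Set B) :=
      (mk_subtype_le _).trans (h1.trans hBle)
    obtain ⟨ψ⟩ := hA0
    refine ⟨fun o => if h : 1 ≤ a o then e (Sum.inl ⟨o, h⟩) else (ψ ⟨o, h⟩ : (Rᶜ : Set B)).1,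
      ?_, ?_⟩
    · intro o o' hoo
      by_cases ho : 1 ≤ a o
      · by_cases ho' : 1 ≤ a o'
        · simp only [ho, ho', dif_pos] at hoo
          have h4 := Sum.inl_injective (he hoo)
          exact congrArg Subtype.val h4
        · exfalso
          simp only [ho, ho', dif_pos, dif_neg, not_false_iff] at hoo
          exact (ψ ⟨o', ho'⟩).2 ⟨⟨o, ho⟩, hoo⟩
      · by_cases ho' : 1 ≤ a o'
        · exfalso
          simp only [ho, ho', dif_pos, dif_neg, not_false_iff] at hoo
          exact (ψ ⟨o, ho⟩).2 ⟨⟨o', ho'⟩, hoo.symm⟩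
        · simp only [ho, ho', dif_neg, not_false_iff] at hoo
          exact congrArg Subtype.val (ψ.injective (Subtype.ext hoo))
    · intro o
      by_cases ho : 1 ≤ a o
      · simp only [ho, dif_pos]
        exact hle (Sum.inl ⟨o, ho⟩)
      · have : a o = 0 := by omega
        rw [this]
        exact Nat.zero_le _

/-- A map with finite fibres does not lower infinite cardinals. -/
theorem mk_le_of_finite_fibres {A B : Type u} (f : A → B) (hf : ∀ y, (f ⁻¹' {y}).Finite)
    (hA : ℵ₀ ≤ #A) : #A ≤ #B := by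
  have h1 : #A ≤ #B * ℵ₀ :=
    mk_le_mk_mul_of_mk_preimage_le f fun y => (hf y).lt_aleph0.le
  by_cases hB : ℵ₀ ≤ #B
  · rwa [mul_aleph0_eq hB] at h1
  · exfalso
    rw [not_le] at hB
    have hfB : Finite B := lt_aleph0_iff_finite.1 hB
    have : Finite A := by
      have hu : (Set.univ : Set A) = ⋃ y : B, f ⁻¹' {y} := by
        ext x
        simp
      have hfin : (⋃ y : B, f ⁻¹' {y}).Finite := Set.finite_iUnion hf
      rw [← hu] at hfin
      exact Set.finite_univ_iff.1 hfin
    exact absurd hA (not_le.2 (lt_aleph0_iff_finite.2 this))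

end Pool.Agent.WFZ
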