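import Mathlib

/-!
# MP_831107_lc : equivariant surjections between sets with a permutation all of whose cycles have
2-power length
-/

universe u

open Cardinal

namespace Pool.Agent.WFZ

/-- Greedy choice of distinct elements. -/
theorem exists_inj_choice {ι β : Type u} (B : ι → Set β) (h : ∀ i, #ι ≤ #(B i)) :
    ∃ f : ι → β, Function.Injective f ∧ ∀ i, f i ∈ B i := by
  obtain ⟨r, wo, hr⟩ := Cardinal.exists_ord_eq ι
  have hwf : WellFounded r := wo.wf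
  have key : ∀ (i : ι) (g : {j // r j i} → β), ∃ b, b ∈ B i ∧ ∀ j, g j ≠ b := by
    intro i g
    by_contra hcon
    push Not at hcon
    have hsub : B i ⊆ Set.range g := fun b hb => hcon b hb
    have h1 : #(B i) ≤ #{j // r j i} := (Cardinal.mk_le_mk_of_subset hsub).trans Cardinal.mk_range_le
    have h2 : #{j // r j i} < #ι := Cardinal.card_typein_lt i hr
    exact absurd ((h i).trans h1) (not_le.2 h2)
  choose c hc hc' using key
  let f : ι → β := hwf.fix fun i ih => c i fun j => ih j.1 j.2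
  have hf : ∀ i, f i = c i fun j => f j.1 := fun i => hwf.fix_eq _ i
  have hne : ∀ i j, r i j → f i ≠ f j := by
    intro i j hij
    rw [hf j]
    exact hc' j (fun k => f k.1) ⟨i, hij⟩
  refine ⟨f, fun i j hij => ?_, fun i => ?_⟩
  · rcases trichotomous_of r i j with h1 | h1 | h1
    · exact (hne i j h1 hij).elim
    · exact h1
    · exact (hne j i h1 hij.symm).elim
  · rw [hf i]
    exact hc i _

section

variable {S : Type u} (σ : Equiv.Perm S) (l : S → ℕ)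

/-- All cycles of `σ` have length a power of `2`, the cycle of `x` has length `2^(l x)`. -/
def PowCyc : Prop := ∀ (x : S) (n : ℤ), (σ ^ n) x = x ↔ ((2 ^ l x : ℕ) : ℤ) ∣ n

variable {σ l}

theorem PowCyc.eq_iff (h : PowCyc σ l) (x : S) (m n : ℤ) :
    (σ ^ m) x = (σ ^ n) x ↔ ((2 ^ l x : ℕ) : ℤ) ∣ m - n := by
  rw [← h, sub_eq_add_neg, add_comm, zpow_add, Equiv.Perm.mul_apply, zpow_neg]
  constructor
  · intro h'
    rw [h']
    exact (σ ^ n).symm_apply_apply x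
  · intro h'
    have h2 := congrArg (σ ^ n) h'
    rwa [show (σ ^ n) ((σ ^ n)⁻¹ ((σ ^ m) x)) = (σ ^ m) x from (σ ^ n).apply_symm_apply _] at h2

theorem PowCyc.eq_of_le (h : PowCyc σ l) {T : Type u} {τ : Equiv.Perm T} {l' : T → ℕ}
    (h' : PowCyc τ l') {x : S} {y : T} (hxy : l' y ≤ l x) {m n : ℤ}
    (hmn : (σ ^ m) x = (σ ^ n) x) : (τ ^ m) y = (τ ^ n) y := by
  rw [h'.eq_iff]
  rw [h.eq_iff] at hmn
  exact (Int.natCast_dvd_natCast.2 (pow_dvd_pow 2 hxy)).trans hmn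

theorem PowCyc.lev_zpow (h : PowCyc σ l) (x : S) (n : ℤ) : l ((σ ^ n) x) = l x := by
  have key : ∀ m : ℤ, ((2 ^ l ((σ ^ n) x) : ℕ) : ℤ) ∣ m ↔ ((2 ^ l x : ℕ) : ℤ) ∣ m := by
    intro m
    rw [← h, ← h, ← Equiv.Perm.mul_apply, ← zpow_add, add_comm, zpow_add, Equiv.Perm.mul_apply,
      (σ ^ n).injective.eq_iff]
  have h1 := Int.natCast_dvd_natCast.1 ((key _).2 dvd_rfl)
  have h2 := Int.natCast_dvd_natCast.1 ((key _).1 dvd_rfl)
  exact le_antisymm ((Nat.pow_dvd_pow_iff_le_right (by norm_num)).1 h1)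
    ((Nat.pow_dvd_pow_iff_le_right (by norm_num)).1 h2)

/-- The type of cycles. -/
def Cyc (σ : Equiv.Perm S) : Type u := Quotient (Equiv.Perm.SameCycle.setoid σ)

/-- The cycle of an element. -/
def cyc (σ : Equiv.Perm S) (x : S) : Cyc σ := Quotient.mk _ x

/-- A representative of a cycle. -/
noncomputable def Cyc.rep (q : Cyc σ) : S := Quotient.out q

theorem cyc_rep (q : Cyc σ) : cyc σ q.rep = q := Quotient.out_eq q

theorem cyc_eq_iff {x y : S} : cyc σ x = cyc σ y ↔ ∃ n : ℤ, (σ ^ n) x = y := Quotient.eq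

theorem exists_rep_eq (x : S) : ∃ n : ℤ, (σ ^ n) (cyc σ x).rep = x :=
  cyc_eq_iff.1 (cyc_rep (cyc σ x))

theorem rep_injective : Function.Injective (Cyc.rep : Cyc σ → S) := by
  intro q q' h
  rw [← cyc_rep q, h, cyc_rep]

/-- The length exponent of a cycle. -/
noncomputable def Cyc.lev (l : S → ℕ) (q : Cyc σ) : ℕ := l q.rep

theorem PowCyc.lev_cyc (h : PowCyc σ l) (x : S) : (cyc σ x).lev l = l x := by
  obtain ⟨n, hn⟩ := exists_rep_eq (σ := σ) x
  rw [Cyc.lev, ← h.lev_zpow _ n, hn]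

/-- An infinite union of cycles has as many elements as cycles. -/
theorem PowCyc.card_cycles (h : PowCyc σ l) (P : Cyc σ → Prop)
    (hP : ℵ₀ ≤ #{x : S // P (cyc σ x)}) : #{x : S // P (cyc σ x)} ≤ #{q : Cyc σ // P q} := by
  have hsurj : ∃ G : (Σ q : {q : Cyc σ // P q}, Fin (2 ^ (q.1.lev l))) → {x : S // P (cyc σ x)},
      Function.Surjective G := by
    refine ⟨fun a => ⟨(σ ^ ((a.2 : ℕ) : ℤ)) a.1.1.rep, ?_⟩, ?_⟩
    · have h1 : cyc σ ((σ ^ ((a.2 : ℕ) : ℤ)) a.1.1.rep) = a.1.1 :=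
        (cyc_eq_iff.2 ⟨((a.2 : ℕ) : ℤ), rfl⟩).symm.trans (cyc_rep _)
      rw [h1]
      exact a.1.2
    · rintro ⟨x, hx⟩
      obtain ⟨n, hn⟩ := exists_rep_eq (σ := σ) x
      have hpos : (0 : ℤ) < ((2 ^ ((cyc σ x).lev l) : ℕ) : ℤ) := by positivity
      refine ⟨⟨⟨cyc σ x, hx⟩, ⟨(n % ((2 ^ ((cyc σ x).lev l) : ℕ) : ℤ)).toNat, ?_⟩⟩, ?_⟩
      · have h1 := Int.emod_lt_of_pos n hpos
        have h2 := Int.emod_nonneg n hpos.ne'
        have h3 : (((n % ((2 ^ ((cyc σ x).lev l) : ℕ) : ℤ)).toNat : ℕ) : ℤ) <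
            ((2 ^ ((cyc σ x).lev l) : ℕ) : ℤ) := by
          rw [Int.toNat_of_nonneg h2]
          exact h1
        exact_mod_cast h3
      · apply Subtype.ext
        show (σ ^ ((((n % ((2 ^ ((cyc σ x).lev l) : ℕ) : ℤ)).toNat : ℕ)) : ℤ)) (cyc σ x).rep = x
        rw [Int.toNat_of_nonneg (Int.emod_nonneg n hpos.ne')]
        conv_rhs => rw [← hn]
        rw [h.eq_iff, show l (cyc σ x).rep = (cyc σ x).lev l from rfl]
        refine ⟨-(n / ((2 ^ ((cyc σ x).lev l) : ℕ) : ℤ)), ?_⟩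
        have := Int.emod_add_mul_ediv n ((2 ^ ((cyc σ x).lev l) : ℕ) : ℤ)
        linarith
  obtain ⟨G, hG⟩ := hsurj
  have hinf : Infinite {q : Cyc σ // P q} := by
    by_contra hcon
    rw [not_infinite_iff_finite] at hcon
    have : Finite {x : S // P (cyc σ x)} := Finite.of_surjective G hG
    exact absurd hP (not_le.2 (Cardinal.lt_aleph0_iff_finite.2 this))
  have hinj : ∃ G' : (Σ q : {q : Cyc σ // P q}, Fin (2 ^ (q.1.lev l))) → {q : Cyc σ // P q} × ℕ,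
      Function.Injective G' := by
    refine ⟨fun a => (a.1, (a.2 : ℕ)), ?_⟩
    rintro ⟨q, i⟩ ⟨q', i'⟩ heq
    simp only [Prod.mk.injEq] at heq
    obtain ⟨rfl, h2⟩ := heq
    congr 1
    exact Fin.ext h2
  obtain ⟨G', hG'⟩ := hinj
  calc #{x : S // P (cyc σ x)} ≤ #(Σ q : {q : Cyc σ // P q}, Fin (2 ^ (q.1.lev l))) :=
        Cardinal.mk_le_of_surjective hG
    _ ≤ #({q : Cyc σ // P q} × ℕ) := Cardinal.mk_le_of_injective hG'
    _ = #{q : Cyc σ // P q} := by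
        rw [Cardinal.mk_prod, Cardinal.mk_nat, Cardinal.lift_aleph0, Cardinal.lift_uzero]
        exact Cardinal.mul_eq_left (Cardinal.aleph0_le_mk _) (Cardinal.aleph0_le_mk _)
          Cardinal.aleph0_ne_zero

end

/-- The main combinatorial lemma: existence of an equivariant surjection `T → S`. -/
theorem exists_equivariant_surj {S T : Type u} {σ : Equiv.Perm S} {τ : Equiv.Perm T}
    {l : S → ℕ} {l' : T → ℕ} (hσ : PowCyc σ l) (hτ : PowCyc τ l') (s0 : S) (hs0 : l s0 = 0)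
    (hcard : #S ≤ #T) (c : Cardinal.{u}) (hc : ℵ₀ ≤ c) (hS : #{s : S // 1 ≤ l s} ≤ c)
    (hT : ∀ j, c ≤ #{t : T // j ≤ l' t}) :
    ∃ F : T → S, Function.Surjective F ∧ ∀ t, F (τ t) = σ (F t) := by
  classical
  -- numbers of cycles
  have hTlev : ∀ j, c ≤ #{q : Cyc τ // j ≤ q.lev l'} := by
    intro j
    have h1 : #{t : T // j ≤ (cyc τ t).lev l'} = #{t : T // j ≤ l' t} := by
      simp only [hτ.lev_cyc]
    have h2 : c ≤ #{t : T // j ≤ (cyc τ t).lev l'} := h1 ▸ hT j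
    exact h2.trans (hτ.card_cycles (fun q => j ≤ q.lev l') (hc.trans h2))
  have hTT : #T ≤ #(Cyc τ) := by
    have h1 : #{t : T // (fun _ : Cyc τ => True) (cyc τ t)} = #T :=
      Cardinal.mk_congr (Equiv.subtypeUnivEquiv fun _ => trivial)
    have h2 : #{q : Cyc τ // (fun _ : Cyc τ => True) q} = #(Cyc τ) :=
      Cardinal.mk_congr (Equiv.subtypeUnivEquiv fun _ => trivial)
    have h3 := hτ.card_cycles (fun _ => True) ?_
    · rw [h1, h2] at h3
      exact h3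
    · rw [h1]
      exact hc.trans ((hT 0).trans (Cardinal.mk_subtype_le _))
  -- long cycles of `S`
  obtain ⟨Λ, hΛ⟩ : ∃ Λ : Type u, #Λ = c := ⟨c.out, Cardinal.mk_out c⟩
  let ι : Type u := {q : Cyc σ // 1 ≤ q.lev l} ⊕ Λ
  have hlong : #{q : Cyc σ // 1 ≤ q.lev l} ≤ c := by
    refine le_trans ?_ hS
    refine Cardinal.mk_le_of_injective
      (f := fun q : {q : Cyc σ // 1 ≤ q.lev l} => (⟨q.1.rep, q.2⟩ : {s : S // 1 ≤ l s})) ?_
    intro q q' h
    exact Subtype.ext (rep_injective (congrArg Subtype.val h))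
  have hι : #ι ≤ c := by
    have h1 : #ι = #{q : Cyc σ // 1 ≤ q.lev l} + #Λ := by simp [ι]
    rw [h1, hΛ]
    calc #{q : Cyc σ // 1 ≤ q.lev l} + c ≤ c + c := add_le_add_left hlong c
      _ = c := Cardinal.add_eq_self hc
  let B : ι → Set (Cyc τ) := fun i => Sum.elim (fun q => {q' | q.1.lev l ≤ q'.lev l'})
    (fun _ => {q' | 0 ≤ q'.lev l'}) i
  obtain ⟨f, hf, hfB⟩ := exists_inj_choice B (by
    rintro (q | x)
    · exact hι.trans (hTlev _)
    · exact hι.trans (hTlev 0))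
  let A : Set (Cyc τ) := Set.range fun q => f (Sum.inl q)
  have hAc : c ≤ #(Aᶜ : Set (Cyc τ)) := by
    rw [← hΛ]
    refine Cardinal.mk_le_of_injective (f := fun x : Λ => (⟨f (Sum.inr x), ?_⟩ : (Aᶜ : Set (Cyc τ)))) ?_
    · rintro ⟨q, hq⟩
      exact absurd (hf hq) (by simp)
    · intro x y hxy
      exact Sum.inr_injective (hf (congrArg Subtype.val hxy))
  have hAc' : #(Cyc τ) ≤ #(Aᶜ : Set (Cyc τ)) := by
    rw [← Cardinal.mk_sum_compl A]
    have h1 : #A ≤ #(Aᶜ : Set (Cyc τ)) :=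
      (Cardinal.mk_range_le.trans hlong).trans hAc
    calc #A + #(Aᶜ : Set (Cyc τ)) ≤ #(Aᶜ : Set (Cyc τ)) + #(Aᶜ : Set (Cyc τ)) :=
          add_le_add_left h1 _
      _ = #(Aᶜ : Set (Cyc τ)) := Cardinal.add_eq_self (hc.trans hAc)
  have hshort : #{q : Cyc σ // q.lev l = 0} ≤ #(Aᶜ : Set (Cyc τ)) := by
    refine le_trans ?_ (hcard.trans (hTT.trans hAc'))
    exact Cardinal.mk_le_of_injective (f := fun q : {q : Cyc σ // q.lev l = 0} => q.1.rep)
      fun q q' h => Subtype.ext (rep_injective h)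
  obtain ⟨g⟩ := Cardinal.le_def _ _ |>.1 hshort
  let Ψ : Cyc σ → Cyc τ := fun q =>
    if h : q.lev l = 0 then (g ⟨q, h⟩).1 else f (Sum.inl ⟨q, Nat.one_le_iff_ne_zero.2 h⟩)
  have hΨ0 : ∀ q (h : q.lev l = 0), Ψ q = (g ⟨q, h⟩).1 := fun q h => dif_pos h
  have hΨ1 : ∀ q (h : ¬ q.lev l = 0), Ψ q = f (Sum.inl ⟨q, Nat.one_le_iff_ne_zero.2 h⟩) :=
    fun q h => dif_neg h
  have hΨinj : Function.Injective Ψ := by
    intro q q' h
    by_cases h1 : q.lev l = 0 <;> by_cases h2 : q'.lev l = 0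
    · rw [hΨ0 q h1, hΨ0 q' h2] at h
      exact congrArg Subtype.val (g.injective (Subtype.ext h))
    · rw [hΨ0 q h1, hΨ1 q' h2] at h
      exact ((g ⟨q, h1⟩).2 ⟨_, h.symm⟩).elim
    · rw [hΨ1 q h1, hΨ0 q' h2] at h
      exact ((g ⟨q', h2⟩).2 ⟨_, h⟩).elim
    · rw [hΨ1 q h1, hΨ1 q' h2] at h
      exact congrArg Subtype.val (Sum.inl_injective (hf h))
  have hΨlev : ∀ q, q.lev l ≤ (Ψ q).lev l' := by
    intro q
    by_cases h1 : q.lev l = 0
    · rw [h1]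
      exact Nat.zero_le _
    · rw [hΨ1 q h1]
      exact hfB (Sum.inl ⟨q, Nat.one_le_iff_ne_zero.2 h1⟩)
  let Φ : Cyc τ → Cyc σ := Function.extend Ψ id fun _ => cyc σ s0
  have hΦ : ∀ q, Φ (Ψ q) = q := fun q => hΨinj.extend_apply _ _ q
  have hΦlev : ∀ q, (Φ q).lev l ≤ q.lev l' := by
    intro q
    by_cases h : ∃ q', Ψ q' = q
    · obtain ⟨q', rfl⟩ := h
      rw [hΦ]
      exact hΨlev q'
    · have h1 : Φ q = cyc σ s0 := Function.extend_apply' _ _ _ h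
      rw [h1, hσ.lev_cyc, hs0]
      exact Nat.zero_le _
  choose n hn using fun t : T => exists_rep_eq (σ := τ) t
  let F : T → S := fun t => (σ ^ n t) (Φ (cyc τ t)).rep
  have hF : ∀ (t : T) (m : ℤ), (τ ^ m) (cyc τ t).rep = t → F t = (σ ^ m) (Φ (cyc τ t)).rep := by
    intro t m hm
    have h1 : (τ ^ n t) (cyc τ t).rep = (τ ^ m) (cyc τ t).rep := by rw [hn t, hm]
    exact hτ.eq_of_le hσ (hΦlev (cyc τ t)) h1
  refine ⟨F, fun s => ?_, fun t => ?_⟩
  · obtain ⟨m, hm⟩ := exists_rep_eq (σ := σ) s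
    refine ⟨(τ ^ m) (Ψ (cyc σ s)).rep, ?_⟩
    have h1 : cyc τ ((τ ^ m) (Ψ (cyc σ s)).rep) = Ψ (cyc σ s) := by
      conv_rhs => rw [← cyc_rep (Ψ (cyc σ s))]
      exact (cyc_eq_iff.2 ⟨m, rfl⟩).symm
    rw [hF _ m (by rw [h1]), h1, hΦ, hm]
  · have h1 : cyc τ (τ t) = cyc τ t := (cyc_eq_iff.2 ⟨1, by rw [zpow_one]⟩).symm
    have h2 : (τ ^ (1 + n t)) (cyc τ (τ t)).rep = τ t := by
      rw [h1, zpow_add, Equiv.Perm.mul_apply, hn t, zpow_one]
    rw [hF _ _ h2, h1, zpow_add, Equiv.Perm.mul_apply, zpow_one]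

end Pool.Agent.WFZ
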