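import Mathlib

/-!
# MP_831107_lc : set theory with atoms, the principles `WF^x_yk` and `CSB*`

Everything is stated for an arbitrary structure `M` with a binary relation `mem` (membership) and
a unary predicate `isAtom`. All quantifiers in the definitions below range over `M`, so each notion
is first order over `M`; the separation and replacement schemes of `IsZFA` are over all first order
formulas with parameters (Mathlib's `FirstOrder.Language.Formula`).
-/

open FirstOrder

namespace Pool.Agent.WFZ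

/-- A structure for the language of set theory with atoms. -/
class SetStr (M : Type*) where
  /-- membership -/
  mem : M → M → Prop
  /-- being an atom -/
  isAtom : M → Prop

open SetStr (mem isAtom)


/-- The relation symbols: `∈` and `atom`. -/
inductive Rel : ℕ → Type
  | mem : Rel 2
  | atom : Rel 1

/-- The first order language of set theory with atoms. -/
def Lang : FirstOrder.Language.{0, 0} := ⟨fun _ => Empty, Rel⟩

/-- A set structure as a first order structure. -/
instance structureOf (M : Type*) [SetStr M] : Lang.Structure M where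
  funMap := fun f => (f : Empty).elim
  RelMap := fun {n} r =>
    match n, r with
    | _, Rel.mem => fun v => mem (v 0) (v 1)
    | _, Rel.atom => fun v => isAtom (v 0)

section

variable {M : Type*} [SetStr M]

/-- `x` is the empty set. -/
def IsEmp (x : M) : Prop := ¬ isAtom x ∧ ∀ y, ¬ mem y x

/-- `m` is the successor `n ∪ {n}`. -/
def IsSucc (m n : M) : Prop := ∀ w, mem w m ↔ mem w n ∨ w = n

/-- `z` is an inductive set. -/
def IsInductive (z : M) : Prop :=
  (∃ e, IsEmp e ∧ mem e z) ∧ ∀ n, mem n z → ∃ m, mem m z ∧ IsSucc m n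

/-- `w` is the set `ω` of natural numbers. -/
def IsOmega (w : M) : Prop := IsInductive w ∧ ∀ z, IsInductive z → ∀ n, mem n w → mem n z

/-- The axioms of ZFA: set theory with a set of atoms. -/
structure IsZFA (M : Type*) [SetStr M] : Prop where
  /-- extensionality for sets -/
  ext : ∀ x y : M, ¬ isAtom x → ¬ isAtom y → (∀ z, mem z x ↔ mem z y) → x = y
  /-- atoms have no members -/
  atom_empty : ∀ a x : M, isAtom a → ¬ mem x a
  /-- the atoms form a set -/
  atoms : ∃ z : M, ¬ isAtom z ∧ ∀ w, mem w z ↔ isAtom w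
  /-- there is an empty set -/
  empty : ∃ z : M, IsEmp z
  /-- pairing -/
  pairing : ∀ x y : M, ∃ z, ¬ isAtom z ∧ ∀ w, mem w z ↔ w = x ∨ w = y
  /-- union -/
  union : ∀ x : M, ∃ z, ¬ isAtom z ∧ ∀ w, mem w z ↔ ∃ y, mem y x ∧ mem w y
  /-- power set -/
  power : ∀ x : M, ∃ z, ¬ isAtom z ∧ ∀ w, mem w z ↔ ¬ isAtom w ∧ ∀ v, mem v w → mem v x
  /-- infinity: there is a set `ω` -/
  infinity : ∃ w : M, ¬ isAtom w ∧ IsOmega w
  /-- foundation -/
  foundation : ∀ x : M, (∃ y, mem y x) → ∃ y, mem y x ∧ ∀ z, mem z x → ¬ mem z y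
  /-- separation, for every first order formula with parameters -/
  separation : ∀ {n : ℕ} (φ : Lang.Formula (Fin (n + 1))) (p : Fin n → M) (x : M),
    ∃ z : M, ¬ isAtom z ∧ ∀ w : M, mem w z ↔ mem w x ∧ φ.Realize (Fin.cons w p : Fin (n + 1) → M)
  /-- replacement, for every first order formula with parameters -/
  replacement : ∀ {n : ℕ} (φ : Lang.Formula (Fin (n + 2))) (p : Fin n → M) (x : M),
    (∀ w v v' : M, mem w x → φ.Realize (Fin.cons w (Fin.cons v p) : Fin (n + 2) → M) →
      φ.Realize (Fin.cons w (Fin.cons v' p) : Fin (n + 2) → M) → v = v') →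
    ∃ z : M, ¬ isAtom z ∧ ∀ v : M, mem v z ↔
      ∃ w : M, mem w x ∧ φ.Realize (Fin.cons w (Fin.cons v p) : Fin (n + 2) → M)

/-- `z = {x, y}`. -/
def IsUpair (z x y : M) : Prop := ∀ w, mem w z ↔ w = x ∨ w = y

/-- `z = (x, y)` (Kuratowski). -/
def IsOpair (z x y : M) : Prop := ∃ a b, IsUpair a x x ∧ IsUpair b x y ∧ IsUpair z a b

/-- `(x, y) ∈ f`. -/
def App (f x y : M) : Prop := ∃ z, mem z f ∧ IsOpair z x y

/-- `f` is a function from `X` to `Y`. -/
def IsFunc (f X Y : M) : Prop :=
  ¬ isAtom f ∧ (∀ z, mem z f → ∃ x y, mem x X ∧ mem y Y ∧ IsOpair z x y) ∧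
    ∀ x, mem x X → ∃! y, App f x y

/-- `f` is an injection from `X` to `Y`. -/
def IsInj (f X Y : M) : Prop := IsFunc f X Y ∧ ∀ x x' y, App f x y → App f x' y → x = x'

/-- `f` is a surjection from `X` onto `Y`. -/
def IsSurj (f X Y : M) : Prop := IsFunc f X Y ∧ ∀ y, mem y Y → ∃ x, App f x y

/-- `f` is a bijection from `X` to `Y`. -/
def IsBij (f X Y : M) : Prop := IsInj f X Y ∧ IsSurj f X Y

/-- `|X| ≤ |Y|`. -/
def Le (X Y : M) : Prop := ∃ f : M, IsInj f X Y

/-- `|X| ≤* |Y|` : `X = ∅` or `Y` maps onto `X`. -/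
def LeStar (X Y : M) : Prop := (∀ x : M, ¬ mem x X) ∨ ∃ f : M, IsSurj f Y X

/-- `|X| = |Y|`. -/
def EqCard (X Y : M) : Prop := ∃ f : M, IsBij f X Y

end

/-- The dual Cantor-Schröder-Bernstein theorem `CSB*` in `M`. -/
def CSBstar (M : Type*) [SetStr M] : Prop :=
  ∀ X Y : M, ¬ isAtom X → ¬ isAtom Y → LeStar X Y → LeStar Y X → EqCard X Y

/-- The index `x ∈ {i, s}`. -/
inductive Ix
  | i
  | s

/-- The index `y ∈ {i, s, b}`. -/
inductive Iy
  | i
  | s
  | b

section

variable {M : Type*} [SetStr M]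

/-- `|X| ≼_x |Y|`. -/
def Prec : Ix → M → M → Prop
  | Ix.i => Le
  | Ix.s => LeStar

/-- `|X| R_y |Y|`. -/
def RelY : Iy → M → M → Prop
  | Iy.i => Le
  | Iy.s => LeStar
  | Iy.b => EqCard

/-- `K` codes a cardinal: a nonempty set of pairwise equinumerous sets (for example, by Scott's
trick, the set of all sets of least rank equinumerous with a given set). -/
def IsCode (K : M) : Prop :=
  ¬ isAtom K ∧ (∃ X, mem X K) ∧ (∀ X, mem X K → ¬ isAtom X) ∧ ∀ X Y, mem X K → mem Y K → EqCard X Y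

/-- `≼_x` for coded cardinals. -/
def CPrec (x : Ix) (K K' : M) : Prop := ∃ X Y, mem X K ∧ mem Y K' ∧ Prec x X Y

/-- `R_y` for coded cardinals. -/
def CRel (y : Iy) (K K' : M) : Prop := ∃ X Y, mem X K ∧ mem Y K' ∧ RelY y X Y

/-- `s` is a sequence, that is, a function with domain `w = ω`. -/
def IsSeq (s w : M) : Prop :=
  ¬ isAtom s ∧ (∀ z, mem z s → ∃ n x, mem n w ∧ IsOpair z n x) ∧ ∀ n, mem n w → ∃! x, App s n x

end

/-- `WF^x_y1` : every nonempty set of cardinals `C` has some `κ ∈ C` with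
`λ ≼_x κ → κ R_y λ` for all `λ ∈ C`. -/
def WF1 (M : Type*) [SetStr M] (x : Ix) (y : Iy) : Prop :=
  ∀ C : M, (∃ K, mem K C) → (∀ K, mem K C → IsCode K) →
    ∃ K, mem K C ∧ ∀ K', mem K' C → CPrec x K' K → CRel y K K'

/-- `WF^x_y2` : for every sequence of cardinals with `κ_(n+1) ≼_x κ_n` for all `n` there is `n`
with `κ_n R_y κ_(n+1)`. -/
def WF2 (M : Type*) [SetStr M] (x : Ix) (y : Iy) : Prop :=
  ∀ w s : M, IsOmega w → IsSeq s w → (∀ n K, App s n K → IsCode K) →
    (∀ n m K K', mem n w → IsSucc m n → App s n K → App s m K' → CPrec x K' K) →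
    ∃ n m K K', mem n w ∧ IsSucc m n ∧ App s n K ∧ App s m K' ∧ CRel y K K'

/-- `WF^x_y3` : for every sequence of sets with `|A_(n+1)| ≼_x |A_n|` for all `n` there is `n`
with `|A_n| R_y |A_(n+1)|`. -/
def WF3 (M : Type*) [SetStr M] (x : Ix) (y : Iy) : Prop :=
  ∀ w s : M, IsOmega w → IsSeq s w → (∀ n A, App s n A → ¬ isAtom A) →
    (∀ n m A A', mem n w → IsSucc m n → App s n A → App s m A' → Prec x A' A) →
    ∃ n m A A', mem n w ∧ IsSucc m n ∧ App s n A ∧ App s m A' ∧ RelY y A A'

/-- The maps of `WF^x_y4` : an injection `A' → A` (if `x = i`), a surjection `A → A'`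
(if `x = s`). -/
def IsMapX {M : Type*} [SetStr M] : Ix → M → M → M → Prop
  | Ix.i => fun f A A' => IsInj f A' A
  | Ix.s => fun f A A' => IsSurj f A A'

/-- `WF^x_y4` : for every sequence of sets `(A_n)` together with a sequence of maps `(f_n)`,
where `f_n : A_(n+1) → A_n` is an injection (`x = i`) or `f_n : A_n → A_(n+1)` is a surjection
(`x = s`), there is `n` with `|A_n| R_y |A_(n+1)|`. -/
def WF4 (M : Type*) [SetStr M] (x : Ix) (y : Iy) : Prop :=
  ∀ w s t : M, IsOmega w → IsSeq s w → IsSeq t w → (∀ n A, App s n A → ¬ isAtom A) →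
    (∀ n m A A' f, mem n w → IsSucc m n → App s n A → App s m A' → App t n f → IsMapX x f A A') →
    ∃ n m A A', mem n w ∧ IsSucc m n ∧ App s n A ∧ App s m A' ∧ RelY y A A'

end Pool.Agent.WFZ
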