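import Pool.Agent.Work.MP_831107_lc.Zfa

/-!
# MP_831107_lc : functions of the model = external maps commuting with some `sg^(2^k)`
-/

open FirstOrder

namespace Pool.Agent.WFZ

open SetStr (mem isAtom)

namespace V

/-- The unordered pair. -/
noncomputable def upair (x y : V) : V := (exists_pair x y).choose

theorem upair_spec (x y : V) : IsUpair (upair x y) x y := (exists_pair x y).choose_spec.2

theorem IsUpair.unique {z z' x y : V} (h : IsUpair z x y) (h' : IsUpair z' x y) : z = z' :=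
  ext' (not_isAtom_of_mem ((h x).2 (Or.inl rfl))) (not_isAtom_of_mem ((h' x).2 (Or.inl rfl)))
    fun w => (h w).trans (h' w).symm

theorem isUpair_sgk {k : ℕ} {z x y : V} (h : IsUpair z x y) :
    IsUpair (sgk k z) (sgk k x) (sgk k y) := by
  intro w
  obtain ⟨u, rfl⟩ := (sgk k).surjective w
  rw [mem_sgk, h u, (sgk k).injective.eq_iff, (sgk k).injective.eq_iff]

/-- The ordered pair. -/
noncomputable def opair (x y : V) : V := upair (upair x x) (upair x y)

theorem isOpair_opair (x y : V) : IsOpair (opair x y) x y :=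
  ⟨_, _, upair_spec x x, upair_spec x y, upair_spec _ _⟩

theorem isOpair_iff {z x y : V} : IsOpair z x y ↔ z = opair x y := by
  constructor
  · rintro ⟨a, b, ha, hb, hz⟩
    have h1 : a = upair x x := IsUpair.unique ha (upair_spec x x)
    have h2 : b = upair x y := IsUpair.unique hb (upair_spec x y)
    subst h1 h2
    exact IsUpair.unique hz (upair_spec _ _)
  · rintro rfl
    exact isOpair_opair x y

theorem upair_inj {x y y' : V} (h : upair x y = upair x y') : y = y' := by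
  have h1 : mem y (upair x y') := h ▸ (upair_spec x y y).2 (Or.inr rfl)
  have h2 : mem y' (upair x y) := h ▸ (upair_spec x y' y').2 (Or.inr rfl)
  rcases (upair_spec x y' y).1 h1 with rfl | h3
  · rcases (upair_spec y y y').1 h2 with h4 | h4 <;> exact h4.symm
  · exact h3

theorem opair_inj {x y x' y' : V} : opair x y = opair x' y' ↔ x = x' ∧ y = y' := by
  constructor
  · intro h
    have hx : x = x' := by
      have h1 : mem (upair x x) (opair x' y') := h ▸ (upair_spec _ _ _).2 (Or.inl rfl)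
      rcases (upair_spec _ _ _).1 h1 with h2 | h2
      · have h3 : mem x (upair x' x') := h2 ▸ (upair_spec x x x).2 (Or.inl rfl)
        rcases (upair_spec _ _ _).1 h3 with h4 | h4 <;> exact h4
      · have h3 : mem x' (upair x x) := h2 ▸ (upair_spec x' y' x').2 (Or.inl rfl)
        rcases (upair_spec _ _ _).1 h3 with h4 | h4 <;> exact h4.symm
    subst hx
    exact ⟨rfl, upair_inj (upair_inj h)⟩
  · rintro ⟨rfl, rfl⟩
    rfl

theorem opair_sgk (k : ℕ) (x y : V) : sgk k (opair x y) = opair (sgk k x) (sgk k y) := by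
  obtain ⟨a, b, ha, hb, hz⟩ := isOpair_opair x y
  exact isOpair_iff.1 ⟨_, _, isUpair_sgk ha, isUpair_sgk hb, isUpair_sgk hz⟩

theorem app_iff {f x y : V} : App f x y ↔ mem (opair x y) f := by
  constructor
  · rintro ⟨z, hz, hz'⟩
    rwa [← isOpair_iff.1 hz']
  · intro h
    exact ⟨_, h, isOpair_opair x y⟩

theorem app_sgk {k : ℕ} {f : V} (h : Fixed k f) (x y : V) :
    App f (sgk k x) (sgk k y) ↔ App f x y := by
  rw [app_iff, app_iff, ← opair_sgk, h.mem_iff]

/-- `F` maps `X` into `Y` and commutes with `sg^(2^k)` on `X`. -/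
structure Eqvt (k : ℕ) (F : V → V) (X Y : V) : Prop where
  fix_left : Fixed k X
  fix_right : Fixed k Y
  maps : ∀ x, mem x X → mem (F x) Y
  comm : ∀ x, mem x X → F (sgk k x) = sgk k (F x)

/-- An external map commuting with `sg^(2^k)` is a function of the model. -/
theorem Eqvt.exists_func {k : ℕ} {F : V → V} {X Y : V} (h : Eqvt k F X Y) :
    ∃ f : V, IsFunc f X Y ∧ ∀ x y, App f x y ↔ mem x X ∧ F x = y := by
  obtain ⟨α, g, hg⟩ := exists_members X
  obtain ⟨f, hf, hf'⟩ := exists_of_small (fun z => ∃ x, mem x X ∧ z = opair x (F x)) k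
    (by
      rintro z ⟨x, hx, rfl⟩
      exact ⟨sgk k x, (h.fix_left.mem_iff x).2 hx, by rw [opair_sgk, h.comm x hx]⟩)
    (fun i => opair (g i) (F (g i)))
    (by
      rintro z ⟨x, hx, rfl⟩
      obtain ⟨i, rfl⟩ := (hg x).1 hx
      exact ⟨i, rfl⟩)
  have happ : ∀ x y, App f x y ↔ mem x X ∧ F x = y := by
    intro x y
    rw [app_iff, hf']
    constructor
    · rintro ⟨x', hx', hxy⟩
      obtain ⟨rfl, rfl⟩ := opair_inj.1 hxy
      exact ⟨hx', rfl⟩
    · rintro ⟨hx, rfl⟩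
      exact ⟨x, hx, rfl⟩
  refine ⟨f, ⟨hf, ?_, ?_⟩, happ⟩
  · intro z hz
    obtain ⟨x, hx, rfl⟩ := (hf' z).1 hz
    exact ⟨x, F x, hx, h.maps x hx, isOpair_opair _ _⟩
  · intro x hx
    exact ⟨F x, (happ x (F x)).2 ⟨hx, rfl⟩, fun y hy => ((happ x y).1 hy).2.symm⟩

/-- A function of the model is an external map commuting with `sg^(2^k)` for all large `k`. -/
theorem exists_eqvt {f X Y : V} (h : IsFunc f X Y) :
    ∃ (k : ℕ) (F : V → V), (∀ l, k ≤ l → Eqvt l F X Y) ∧
      ∀ x, mem x X → ∀ y, App f x y ↔ F x = y := by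
  obtain ⟨k1, h1⟩ := exists_fixed f
  obtain ⟨k2, h2⟩ := exists_fixed X
  obtain ⟨k3, h3⟩ := exists_fixed Y
  have hne : ∀ x : V, ∃ y : V, mem x X → App f x y := by
    intro x
    by_cases hx : mem x X
    · obtain ⟨y, hy, -⟩ := h.2.2 x hx
      exact ⟨y, fun _ => hy⟩
    · exact ⟨x, fun h' => (hx h').elim⟩
  choose F hF using hne
  have huniq : ∀ x, mem x X → ∀ y, App f x y ↔ F x = y := by
    intro x hx y
    constructor
    · intro hy
      exact (h.2.2 x hx).unique (hF x hx) hy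
    · rintro rfl
      exact hF x hx
  refine ⟨max k1 (max k2 k3), F, fun l hl => ?_, huniq⟩
  have h1' := h1.mono ((le_max_left _ _).trans hl)
  have h2' := h2.mono (((le_max_left _ _).trans (le_max_right _ _)).trans hl)
  have h3' := h3.mono (((le_max_right _ _).trans (le_max_right _ _)).trans hl)
  refine ⟨h2', h3', fun x hx => ?_, fun x hx => ?_⟩
  · obtain ⟨z, hz, hz'⟩ := hF x hx
    obtain ⟨x', y', hx', hy', hz''⟩ := h.2.1 z hz
    have := (isOpair_iff.1 hz').symm.trans (isOpair_iff.1 hz'')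
    rw [(opair_inj.1 this).2]
    exact hy'
  · refine (huniq _ ((h2'.mem_iff x).2 hx) _).1 ?_
    exact (app_sgk h1' x (F x)).2 (hF x hx)

theorem surj_iff {X Y : V} :
    (∃ f, IsSurj f X Y) ↔
      ∃ (k : ℕ) (F : V → V), Eqvt k F X Y ∧ ∀ y, mem y Y → ∃ x, mem x X ∧ F x = y := by
  constructor
  · rintro ⟨f, hf, hf'⟩
    obtain ⟨k, F, hF, hF'⟩ := exists_eqvt hf
    refine ⟨k, F, hF k le_rfl, fun y hy => ?_⟩
    obtain ⟨x, z, hz, hz'⟩ := hf' y hy
    obtain ⟨x', y', hx', -, hz''⟩ := hf.2.1 z hz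
    have h1 := opair_inj.1 ((isOpair_iff.1 hz').symm.trans (isOpair_iff.1 hz''))
    have hx : mem x X := h1.1 ▸ hx'
    exact ⟨x, hx, (hF' x hx y).1 ⟨z, hz, hz'⟩⟩
  · rintro ⟨k, F, hF, hF'⟩
    obtain ⟨f, hf, hf'⟩ := hF.exists_func
    refine ⟨f, hf, fun y hy => ?_⟩
    obtain ⟨x, hx, hxy⟩ := hF' y hy
    exact ⟨x, (hf' x y).2 ⟨hx, hxy⟩⟩

/-- Surjections of the model, with a prescribed lower bound for the level. -/
theorem surj_eqvt {X Y : V} (h : ∃ f, IsSurj f X Y) :
    ∃ (k : ℕ) (F : V → V), (∀ l, k ≤ l → Eqvt l F X Y) ∧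
      ∀ y, mem y Y → ∃ x, mem x X ∧ F x = y := by
  obtain ⟨f, hf, hf'⟩ := h
  obtain ⟨k, F, hF, hF'⟩ := exists_eqvt hf
  refine ⟨k, F, hF, fun y hy => ?_⟩
  obtain ⟨x, z, hz, hz'⟩ := hf' y hy
  obtain ⟨x', y', hx', -, hz''⟩ := hf.2.1 z hz
  have h1 := opair_inj.1 ((isOpair_iff.1 hz').symm.trans (isOpair_iff.1 hz''))
  have hx : mem x X := h1.1 ▸ hx'
  exact ⟨x, hx, (hF' x hx y).1 ⟨z, hz, hz'⟩⟩

/-- Injections of the model. -/
theorem inj_eqvt {X Y : V} (h : ∃ f, IsInj f X Y) :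
    ∃ (k : ℕ) (F : V → V), (∀ l, k ≤ l → Eqvt l F X Y) ∧
      ∀ x x', mem x X → mem x' X → F x = F x' → x = x' := by
  obtain ⟨f, hf, hf'⟩ := h
  obtain ⟨k, F, hF, hF'⟩ := exists_eqvt hf
  refine ⟨k, F, hF, fun x x' hx hx' hxx' => ?_⟩
  exact hf' x x' (F x') ((hF' x hx _).2 hxx') ((hF' x' hx' _).2 rfl)

end V

end Pool.Agent.WFZ
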