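import Pool.Agent.Work.MP_831107_lc.Func
import Pool.Agent.Work.MP_831107_lc.Comb

/-!
Levels of elements and the two cardinal invariants `mu` and `lam` of a set of the universe.
-/

namespace Pool.Agent.WFZ

open Cardinal

open SetStr (mem isAtom)

namespace V

/-- `sg` as a permutation. -/
noncomputable def sgP : Equiv.Perm V := sg

theorem sgk_def (k : ℕ) : sgk k = sgP ^ (2 ^ k) := rfl

/-- The length of the orbit of `x`. -/
noncomputable def per (x : V) : ℕ := Function.minimalPeriod sgP x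

theorem zpow_fix (x : V) (n : ℤ) : (sgP ^ n) x = x ↔ (per x : ℤ) ∣ n :=
  MulAction.zpow_smul_eq_iff_minimalPeriod_dvd (a := sgP) (b := x) (n := n)

theorem pow_fix (x : V) (n : ℕ) : (sgP ^ n) x = x ↔ per x ∣ n :=
  MulAction.pow_smul_eq_iff_minimalPeriod_dvd (a := sgP) (b := x) (n := n)

theorem exists_per (x : V) : ∃ l, per x = 2 ^ l := by
  obtain ⟨k, hk⟩ := exists_fixed x
  rw [Fixed, sgk_def] at hk
  obtain ⟨l, -, hl⟩ := (Nat.dvd_prime_pow Nat.prime_two).1 ((pow_fix x _).1 hk)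
  exact ⟨l, hl⟩

/-- The level of `x`: its orbit has length `2^(lev x)`. -/
noncomputable def lev (x : V) : ℕ := (exists_per x).choose

theorem per_eq (x : V) : per x = 2 ^ lev x := (exists_per x).choose_spec

theorem τ_fix_iff (k : ℕ) (x : V) : Fixed k x ↔ lev x ≤ k := by
  rw [Fixed, sgk_def, pow_fix, per_eq, Nat.pow_dvd_pow_iff_le_right (by norm_num)]

theorem zpow_fix' (x : V) (n : ℤ) : (sgP ^ n) x = x ↔ (2 : ℤ) ^ lev x ∣ n := by
  rw [zpow_fix, per_eq]
  push_cast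
  rfl

theorem per_zpow (x : V) (i : ℤ) : per ((sgP ^ i) x) = per x := by
  have h : ∀ n : ℕ, (sgP ^ n) ((sgP ^ i) x) = (sgP ^ i) x ↔ (sgP ^ n) x = x := by
    intro n
    have : (sgP ^ n) ((sgP ^ i) x) = (sgP ^ i) ((sgP ^ n) x) := by
      rw [← Equiv.Perm.mul_apply, ← Equiv.Perm.mul_apply, ← zpow_natCast, ← zpow_add,
        ← zpow_add, add_comm]
    rw [this]
    exact (sgP ^ i).injective.eq_iff
  refine Nat.dvd_antisymm ?_ ?_
  · rw [← pow_fix, h, pow_fix]
  · rw [← pow_fix, ← h, pow_fix]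

theorem lev_zpow (x : V) (i : ℤ) : lev ((sgP ^ i) x) = lev x := by
  have := per_zpow x i
  rw [per_eq, per_eq] at this
  exact Nat.pow_right_injective le_rfl this

theorem τ_zpow (k : ℕ) (i : ℤ) : (sgk k) ^ i = sgP ^ ((2 : ℤ) ^ k * i) := by
  have h : sgk k = sgP ^ ((2 : ℤ) ^ k) := by
    rw [sgk_def, ← zpow_natCast]
    push_cast
    rfl
  rw [h, zpow_mul]

theorem lev_τ_zpow (k : ℕ) (i : ℤ) (x : V) : lev (((sgk k) ^ i) x) = lev x := by
  rw [τ_zpow, lev_zpow]

/-- If `s` has level at most the level of `r` (or at most `k`), then the orbit of `r` under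
`τ k` maps onto the orbit of `s`. -/
theorem τ_zpow_transfer {k : ℕ} {r s : V} (h : lev s ≤ max (lev r) k) {i j : ℤ}
    (hij : ((sgk k) ^ i) r = ((sgk k) ^ j) r) : ((sgk k) ^ i) s = ((sgk k) ^ j) s := by
  have h1 : ∀ t : V, ((sgk k) ^ i) t = ((sgk k) ^ j) t ↔
      (2 : ℤ) ^ lev t ∣ 2 ^ k * (i - j) := by
    intro t
    rw [← zpow_fix', ← τ_zpow, zpow_sub, ← (sgk k ^ j).injective.eq_iff (b := t),
      ← Equiv.Perm.mul_apply]
    have : (sgk k) ^ j * ((sgk k) ^ i * ((sgk k) ^ j)⁻¹) = (sgk k) ^ i := by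
      rw [← zpow_neg, ← zpow_add, ← zpow_add]
      congr 1
      ring
    rw [this]
  rw [h1] at hij ⊢
  rcases le_max_iff.1 h with h | h
  · exact (pow_dvd_pow 2 h).trans hij
  · exact (pow_dvd_pow 2 h).trans (dvd_mul_right _ _)

theorem mem_τ_zpow {k : ℕ} {X : V} (hX : Fixed k X) {x : V} (i : ℤ) (h : mem x X) :
    mem (((sgk k) ^ i) x) X := by
  have hn : ∀ (n : ℕ) (x : V), mem x X → mem (((sgk k) ^ n) x) X := by
    intro n
    induction n with
    | zero => intro x hx; simpa using hx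
    | succ n ih =>
      intro x hx
      rw [pow_succ, Equiv.Perm.mul_apply]
      exact ih _ ((Fixed.mem_iff hX _).2 hx)
  -- `τ^i x = τ^n x` for a suitable natural number `n`
  obtain ⟨n, hn'⟩ : ∃ n : ℕ, ((sgk k) ^ i) x = ((sgk k) ^ n) x := by
    refine ⟨(i % (2 ^ lev x : ℤ)).toNat, ?_⟩
    have h0 : (0 : ℤ) ≤ i % 2 ^ lev x := Int.emod_nonneg _ (by positivity)
    rw [← zpow_natCast, Int.toNat_of_nonneg h0]
    have : (2 : ℤ) ^ lev x ∣ 2 ^ k * (i - i % 2 ^ lev x) :=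
      Dvd.dvd.mul_left (Int.dvd_self_sub_emod) _
    rw [← zpow_fix', ← τ_zpow, zpow_sub] at this
    have h2 := congrArg ((sgk k) ^ (i % 2 ^ lev x)) this
    rw [← Equiv.Perm.mul_apply] at h2
    rw [← h2]
    congr 1
    rw [← zpow_neg, ← zpow_add, ← zpow_add]
    congr 1
    ring
  rw [hn']
  exact hn n x h

/-- `#{x ∈ X : j ≤ lev x}`. -/
noncomputable def cnt (X : V) (j : ℕ) : Cardinal.{1} := #{x : V // mem x X ∧ j ≤ lev x}

/-- `#X`. -/
noncomputable def mu (X : V) : Cardinal.{1} := #{x : V // mem x X}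

/-- The eventual value of `cnt X`. -/
noncomputable def lam (X : V) : Cardinal.{1} := ⨅ j, cnt X j

theorem cnt_anti (X : V) : Antitone (cnt X) := by
  intro i j hij
  exact mk_subtype_mono fun x hx => ⟨hx.1, hij.trans hx.2⟩

theorem exists_cnt_eq (X : V) : ∃ J, ∀ j, J ≤ j → cnt X j = lam X := by
  obtain ⟨J, hJ⟩ := ciInf_mem (cnt X)
  refine ⟨J, fun j hj => le_antisymm ?_ (ciInf_le' _ _)⟩
  calc cnt X j ≤ cnt X J := cnt_anti X hj
    _ = lam X := hJ

theorem lam_le_mu (X : V) : lam X ≤ mu X := by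
  refine (ciInf_le' _ 0).trans ?_
  exact mk_subtype_mono fun x hx => hx.1

theorem lam_zero_or (X : V) : lam X = 0 ∨ ℵ₀ ≤ lam X := by
  by_contra hcon
  push Not at hcon
  obtain ⟨h0, h1⟩ := hcon
  obtain ⟨J, hJ⟩ := exists_cnt_eq X
  have hfin : Finite {x : V // mem x X ∧ J ≤ lev x} := by
    rw [← lt_aleph0_iff_finite]
    have := hJ J le_rfl
    unfold cnt at this
    rw [this]
    exact h1
  obtain ⟨M, hM⟩ := (Set.finite_range
    (fun x : {x : V // mem x X ∧ J ≤ lev x} => lev x.1)).bddAbove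
  have hz : cnt X (max J (M + 1)) = 0 := by
    rw [cnt, mk_eq_zero_iff]
    refine ⟨fun x => ?_⟩
    have h2 : J ≤ lev x.1 := (le_max_left _ _).trans x.2.2
    have h3 : M + 1 ≤ lev x.1 := (le_max_right _ _).trans x.2.2
    have h4 : lev x.1 ≤ M := hM ⟨⟨x.1, x.2.1, h2⟩, rfl⟩
    omega
  exact h0 ((hJ _ (le_max_left _ _)).symm.trans hz)

end V

end Pool.Agent.WFZ
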