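import Pool.Agent.Work.MP_831107_lc.Wf

/-!
# MP_831107_lc : the principles `WF^x_sk` do not imply `CSB*` over ZFA

All definitions of the statement are in `Pool.Agent.Work.MP_831107_lc.Defs`.
-/

namespace Pool.Agent.Work.MP_831107_lc.SurjectiveWF

open Pool.Agent.WFZ

/-- There is a model of `ZFA` in which all eight principles `WF^x_sk` (`x = i, s`,
`k = 1, 2, 3, 4`) hold and the dual Cantor-Schröder-Bernstein theorem `CSB*` fails. -/
theorem result : ∃ (M : Type 1) (_ : SetStr M), IsZFA M ∧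
    (∀ x : Ix, WF1 M x Iy.s ∧ WF2 M x Iy.s ∧ WF3 M x Iy.s ∧ WF4 M x Iy.s) ∧
    ¬ CSBstar M :=
  ⟨V, inferInstance, V.isZFA, fun x => ⟨V.wf1 x, V.wf2 x, V.wf3 x, V.wf4 x⟩, V.not_csbStar⟩

end Pool.Agent.Work.MP_831107_lc.SurjectiveWF
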