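import Mathlib

/-!
# MP_831107_lc : the universe of a permutation model of set theory with atoms

* `Pre A` : trees over a type of atoms `A`, `U A` : the cumulative universe with atoms `A` (the
  quotient of `Pre A` by extensional equality).
* `Atom` : the disjoint union of the cyclic groups `ℤ/2^m`, `shift` : the permutation `i ↦ i + 1`.
* `V` : the sets and atoms which are hereditarily fixed by some power `shift^(2^k)`, `V.memV`,
  `V.IsAtom`, and the automorphism `V.sg` induced by `shift`.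
-/

namespace Pool.Agent.WFZ

/-- Well-founded trees with atoms. -/
inductive Pre (A : Type) : Type 1
  | atom (a : A) : Pre A
  | mk (α : Type) (f : α → Pre A) : Pre A

namespace Pre

variable {A : Type}

/-- Extensional equality. -/
def Eqv : Pre A → Pre A → Prop
  | atom a, atom b => a = b
  | atom _, mk _ _ => False
  | mk _ _, atom _ => False
  | mk _ f, mk _ g => (∀ i, ∃ j, Eqv (f i) (g j)) ∧ (∀ j, ∃ i, Eqv (f i) (g j))

theorem Eqv.refl : ∀ x : Pre A, Eqv x x
  | atom _ => rfl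
  | mk _ f => ⟨fun i => ⟨i, Eqv.refl (f i)⟩, fun i => ⟨i, Eqv.refl (f i)⟩⟩

theorem Eqv.symm : ∀ {x y : Pre A}, Eqv x y → Eqv y x
  | atom _, atom _, h => Eq.symm h
  | atom _, mk _ _, h => h
  | mk _ _, atom _, h => h
  | mk _ _, mk _ _, h =>
    ⟨fun i => (h.2 i).imp fun _ h' => h'.symm, fun i => (h.1 i).imp fun _ h' => h'.symm⟩

theorem Eqv.trans : ∀ {x y z : Pre A}, Eqv x y → Eqv y z → Eqv x z
  | atom _, atom _, atom _, h, h' => Eq.trans h h'
  | atom _, atom _, mk _ _, _, h' => h'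
  | atom _, mk _ _, _, h, _ => h.elim
  | mk _ _, atom _, _, h, _ => h.elim
  | mk _ _, mk _ _, atom _, _, h' => h'
  | mk _ _, mk _ _, mk _ _, h, h' =>
    ⟨fun i => by
      obtain ⟨j, hj⟩ := h.1 i
      obtain ⟨k, hk⟩ := h'.1 j
      exact ⟨k, hj.trans hk⟩,
     fun k => by
      obtain ⟨j, hj⟩ := h'.2 k
      obtain ⟨i, hi⟩ := h.2 j
      exact ⟨i, hi.trans hj⟩⟩

instance setoid (A : Type) : Setoid (Pre A) :=
  ⟨Eqv, Eqv.refl, fun h => h.symm, fun h h' => h.trans h'⟩

/-- The action of a map of atoms. -/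
def act (s : A → A) : Pre A → Pre A
  | atom a => atom (s a)
  | mk α f => mk α fun i => act s (f i)

theorem act_eqv (s : A → A) : ∀ {x y : Pre A}, Eqv x y → Eqv (act s x) (act s y)
  | atom _, atom _, h => congrArg s h
  | atom _, mk _ _, h => h
  | mk _ _, atom _, h => h
  | mk _ _, mk _ _, h =>
    ⟨fun i => (h.1 i).imp fun _ h' => act_eqv s h', fun i => (h.2 i).imp fun _ h' => act_eqv s h'⟩

theorem act_act (s t : A → A) : ∀ x : Pre A, act s (act t x) = act (fun a => s (t a)) x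
  | atom _ => rfl
  | mk α f => congrArg (mk α) (funext fun i => act_act s t (f i))

theorem act_id : ∀ x : Pre A, act (fun a => a) x = x
  | atom _ => rfl
  | mk α f => congrArg (mk α) (funext fun i => act_id (f i))

/-- Membership. -/
def Mem (x : Pre A) : Pre A → Prop
  | atom _ => False
  | mk _ f => ∃ i, Eqv x (f i)

theorem mem_congr {x x' : Pre A} : ∀ {y y' : Pre A}, Eqv x x' → Eqv y y' → (Mem x y ↔ Mem x' y')
  | atom _, atom _, _, _ => Iff.rfl
  | atom _, mk _ _, _, h => h.elim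
  | mk _ _, atom _, _, h => h.elim
  | mk _ _, mk _ _, h, h' =>
    ⟨fun ⟨i, hi⟩ => (h'.1 i).imp fun _ hj => (h.symm.trans hi).trans hj,
     fun ⟨j, hj⟩ => (h'.2 j).imp fun _ hi => (h.trans hj).trans hi.symm⟩

/-- Being an atom. -/
def IsAt : Pre A → Prop
  | atom _ => True
  | mk _ _ => False

theorem isAt_congr : ∀ {x y : Pre A}, Eqv x y → (IsAt x ↔ IsAt y)
  | atom _, atom _, _ => Iff.rfl
  | atom _, mk _ _, h => h.elim
  | mk _ _, atom _, h => h.elim
  | mk _ _, mk _ _, _ => Iff.rfl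

end Pre

/-- The cumulative universe over the atoms `A`. -/
def U (A : Type) : Type 1 := Quotient (Pre.setoid A)

namespace U

variable {A : Type}

/-- The class of a tree. -/
def of (x : Pre A) : U A := Quotient.mk _ x

theorem of_eq {x y : Pre A} : of x = of y ↔ Pre.Eqv x y := Quotient.eq

theorem exists_of (x : U A) : ∃ y, of y = x := Quotient.exists_rep x

/-- Membership. -/
def Mem (x y : U A) : Prop :=
  Quotient.liftOn₂ x y Pre.Mem fun _ _ _ _ h h' => propext (Pre.mem_congr h h')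

/-- Being an atom. -/
def IsAt (x : U A) : Prop :=
  Quotient.liftOn x Pre.IsAt fun _ _ h => propext (Pre.isAt_congr h)

/-- The atom attached to a point of `A`. -/
def atom (a : A) : U A := of (Pre.atom a)

/-- The set with a given family of members. -/
noncomputable def mk (α : Type) (f : α → U A) : U A := of (Pre.mk α fun i => (f i).out)

theorem of_out (x : U A) : of x.out = x := Quotient.out_eq x

theorem mem_mk {α : Type} {f : α → U A} {x : U A} : Mem x (mk α f) ↔ ∃ i, f i = x := by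
  obtain ⟨x, rfl⟩ := exists_of x
  show (∃ i, Pre.Eqv x (f i).out) ↔ _
  refine exists_congr fun i => ?_
  rw [← of_eq, of_out]
  exact eq_comm

theorem not_isAt_mk {α : Type} {f : α → U A} : ¬ IsAt (mk α f) := fun h => h

theorem isAt_atom (a : A) : IsAt (atom a) := trivial

theorem atom_inj {a b : A} : atom a = atom b ↔ a = b := of_eq

theorem cases (x : U A) : (∃ a, x = atom a) ∨ ∃ (α : Type) (f : α → U A), x = mk α f := by
  obtain ⟨x, rfl⟩ := exists_of x
  cases x with
  | atom a => exact Or.inl ⟨a, rfl⟩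
  | mk α f =>
    refine Or.inr ⟨α, fun i => of (f i), ?_⟩
    refine of_eq.2 ⟨fun i => ⟨i, ?_⟩, fun i => ⟨i, ?_⟩⟩ <;>
    · rw [← of_eq, of_out]

theorem isAt_iff {x : U A} : IsAt x ↔ ∃ a, x = atom a := by
  constructor
  · intro h
    rcases cases x with h' | ⟨α, f, rfl⟩
    · exact h'
    · exact (not_isAt_mk h).elim
  · rintro ⟨a, rfl⟩
    exact isAt_atom a

theorem not_mem_atom {x : U A} {a : A} : ¬ Mem x (atom a) := by
  obtain ⟨x, rfl⟩ := exists_of x
  exact fun h => h

theorem mk_eq_mk {α β : Type} {f : α → U A} {g : β → U A} :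
    mk α f = mk β g ↔ (∀ i, ∃ j, f i = g j) ∧ ∀ j, ∃ i, f i = g j := by
  unfold mk
  rw [of_eq]
  show ((∀ i, ∃ j, Pre.Eqv _ _) ∧ (∀ j, ∃ i, Pre.Eqv _ _)) ↔ _
  simp only [← of_eq, of_out]

theorem ext {x y : U A} (hx : ¬ IsAt x) (hy : ¬ IsAt y) (h : ∀ z, Mem z x ↔ Mem z y) : x = y := by
  rcases cases x with ⟨a, rfl⟩ | ⟨α, f, rfl⟩
  · exact (hx (isAt_atom a)).elim
  rcases cases y with ⟨b, rfl⟩ | ⟨β, g, rfl⟩
  · exact (hy (isAt_atom b)).elim
  rw [mk_eq_mk]
  refine ⟨fun i => ?_, fun j => ?_⟩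
  · obtain ⟨j, hj⟩ := mem_mk.1 ((h (f i)).1 (mem_mk.2 ⟨i, rfl⟩))
    exact ⟨j, hj.symm⟩
  · obtain ⟨i, hi⟩ := mem_mk.1 ((h (g j)).2 (mem_mk.2 ⟨j, rfl⟩))
    exact ⟨i, hi⟩

/-- Membership is well-founded. -/
theorem mem_wf : WellFounded (Mem : U A → U A → Prop) := by
  refine ⟨fun x => ?_⟩
  obtain ⟨x, rfl⟩ := exists_of x
  induction x with
  | atom a => exact ⟨_, fun y hy => (not_mem_atom hy).elim⟩
  | mk α f ih =>
    refine ⟨_, fun y hy => ?_⟩
    obtain ⟨y, rfl⟩ := exists_of y
    obtain ⟨i, hi⟩ : ∃ i, Pre.Eqv y (f i) := hy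
    rw [of_eq.2 hi]
    exact ih i

/-- The action of a map of atoms. -/
def act (s : A → A) (x : U A) : U A :=
  Quotient.map (Pre.act s) (fun _ _ h => Pre.act_eqv s h) x

theorem act_of (s : A → A) (x : Pre A) : act s (of x) = of (Pre.act s x) := rfl

theorem act_act (s t : A → A) (x : U A) : act s (act t x) = act (fun a => s (t a)) x := by
  obtain ⟨x, rfl⟩ := exists_of x
  rw [act_of, act_of, act_of, Pre.act_act]

theorem act_id (x : U A) : act (fun a => a) x = x := by
  obtain ⟨x, rfl⟩ := exists_of x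
  rw [act_of, Pre.act_id]

theorem act_atom (s : A → A) (a : A) : act s (atom a) = atom (s a) := rfl

theorem act_mk (s : A → A) {α : Type} (f : α → U A) :
    act s (mk α f) = mk α fun i => act s (f i) := by
  refine of_eq.2 ⟨fun i => ⟨i, ?_⟩, fun i => ⟨i, ?_⟩⟩ <;>
  · rw [← of_eq, of_out, ← act_of, of_out]

/-- The automorphism of the universe induced by a permutation of the atoms. -/
def aut (s : Equiv.Perm A) : U A ≃ U A where
  toFun := act s
  invFun := act s.symm
  left_inv x := by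
    rw [act_act]
    simpa using act_id x
  right_inv x := by
    rw [act_act]
    simpa using act_id x

theorem aut_apply (s : Equiv.Perm A) (x : U A) : aut s x = act s x := rfl

theorem mem_aut (s : Equiv.Perm A) (x y : U A) : Mem (aut s x) (aut s y) ↔ Mem x y := by
  rcases cases y with ⟨a, rfl⟩ | ⟨α, f, rfl⟩
  · rw [aut_apply s (atom a), act_atom]
    exact iff_of_false not_mem_atom not_mem_atom
  · rw [aut_apply s (mk α f), act_mk, mem_mk, mem_mk]
    exact exists_congr fun i => (aut s).injective.eq_iff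

theorem isAt_aut (s : Equiv.Perm A) (x : U A) : IsAt (aut s x) ↔ IsAt x := by
  rcases cases x with ⟨a, rfl⟩ | ⟨α, f, rfl⟩
  · exact iff_of_true trivial trivial
  · rw [aut_apply, act_mk]
    exact iff_of_false not_isAt_mk not_isAt_mk

theorem mem_aut_iff (s : Equiv.Perm A) (x y : U A) :
    Mem x (aut s y) ↔ ∃ z, Mem z y ∧ aut s z = x := by
  constructor
  · intro h
    refine ⟨(aut s).symm x, ?_, (aut s).apply_symm_apply x⟩
    rwa [← mem_aut s, (aut s).apply_symm_apply]
  · rintro ⟨z, hz, rfl⟩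
    exact (mem_aut s z y).2 hz

end U

/-! ### The atoms and the symmetric part -/

/-- The atoms: the disjoint union of the cyclic groups `ℤ/2^m`. -/
abbrev Atom : Type := Σ m : ℕ, ZMod (2 ^ m)

/-- The permutation `i ↦ i + 1` of the atoms. -/
def shift : Equiv.Perm Atom := Equiv.sigmaCongrRight fun m => Equiv.addRight (1 : ZMod (2 ^ m))

theorem shift_apply (m : ℕ) (i : ZMod (2 ^ m)) : shift ⟨m, i⟩ = ⟨m, i + 1⟩ := rfl

theorem shift_iterate (n m : ℕ) (i : ZMod (2 ^ m)) : (shift^[n]) ⟨m, i⟩ = ⟨m, i + n⟩ := by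
  induction n with
  | zero => simp
  | succ n ih =>
    rw [Function.iterate_succ_apply', ih, shift_apply]
    push_cast
    rw [add_assoc]

/-- The automorphism of the full universe. -/
def sgU : U Atom ≃ U Atom := U.aut shift

theorem sgU_iterate_atom (n : ℕ) (a : Atom) : (sgU^[n]) (U.atom a) = U.atom ((shift^[n]) a) := by
  induction n with
  | zero => rfl
  | succ n ih =>
    rw [Function.iterate_succ_apply', Function.iterate_succ_apply', ih]
    rfl

/-- Hereditarily symmetric: `x` and all members of members ... are fixed by some power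
`shift^(2^k)` (with `k` depending on the element). -/
inductive HS : U Atom → Prop
  | intro (x : U Atom) (h : ∃ k : ℕ, (sgU^[2 ^ k]) x = x) (h' : ∀ y, U.Mem y x → HS y) : HS x

theorem HS.sym {x : U Atom} (h : HS x) : ∃ k : ℕ, (sgU^[2 ^ k]) x = x := by
  cases h; assumption

theorem HS.mem {x y : U Atom} (h : HS x) (hy : U.Mem y x) : HS y := by
  cases h with
  | intro _ _ h' => exact h' y hy

theorem iterate_comm (n : ℕ) (x : U Atom) : (sgU^[n]) (sgU x) = sgU ((sgU^[n]) x) := by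
  rw [← Function.iterate_succ_apply, Function.iterate_succ_apply']

theorem HS.sg {x : U Atom} (h : HS x) : HS (sgU x) := by
  induction h with
  | intro x h h' ih =>
    obtain ⟨k, hk⟩ := h
    refine HS.intro _ ⟨k, by rw [iterate_comm, hk]⟩ fun y hy => ?_
    obtain ⟨z, hz, rfl⟩ := (U.mem_aut_iff shift y x).1 hy
    exact ih z hz

theorem sgU_symm_iterate (n : ℕ) (x : U Atom) (h : (sgU^[n]) x = x) :
    (sgU^[n]) (sgU.symm x) = sgU.symm x := by
  apply sgU.injective
  rw [← iterate_comm, sgU.apply_symm_apply, h]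

theorem HS.sg_symm {x : U Atom} (h : HS x) : HS (sgU.symm x) := by
  induction h with
  | intro x h h' ih =>
    obtain ⟨k, hk⟩ := h
    refine HS.intro _ ⟨k, sgU_symm_iterate _ _ hk⟩ fun y hy => ?_
    have h1 : U.Mem (sgU y) x := by
      have := (U.mem_aut shift y (sgU.symm x)).2 hy
      rwa [show U.aut shift (sgU.symm x) = x from sgU.apply_symm_apply x] at this
    have h2 := ih _ h1
    rwa [sgU.symm_apply_apply] at h2

/-- The permutation model. -/
def V : Type 1 := {x : U Atom // HS x}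

namespace V

/-- Membership. -/
def memV (x y : V) : Prop := U.Mem x.1 y.1

/-- Being an atom. -/
def IsAtom (x : V) : Prop := U.IsAt x.1

/-- The automorphism induced by the shift of the atoms. -/
def sg : V ≃ V where
  toFun x := ⟨sgU x.1, x.2.sg⟩
  invFun x := ⟨sgU.symm x.1, x.2.sg_symm⟩
  left_inv x := Subtype.ext (sgU.symm_apply_apply x.1)
  right_inv x := Subtype.ext (sgU.apply_symm_apply x.1)

theorem sg_val (x : V) : (sg x).1 = sgU x.1 := rfl

theorem sg_iterate_val (n : ℕ) (x : V) : ((sg^[n]) x).1 = (sgU^[n]) x.1 := by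
  induction n with
  | zero => rfl
  | succ n ih => rw [Function.iterate_succ_apply', Function.iterate_succ_apply', sg_val, ih]

theorem mem_sg (x y : V) : memV (sg x) (sg y) ↔ memV x y := U.mem_aut shift x.1 y.1

theorem isAtom_sg (x : V) : IsAtom (sg x) ↔ IsAtom x := U.isAt_aut shift x.1

/-- (a) extensionality. -/
theorem ext {x y : V} (hx : ¬ IsAtom x) (hy : ¬ IsAtom y) (h : ∀ z, memV z x ↔ memV z y) :
    x = y := by
  refine Subtype.ext (U.ext hx hy fun z => ⟨fun hz => ?_, fun hz => ?_⟩)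
  · exact (h ⟨z, x.2.mem hz⟩).1 hz
  · exact (h ⟨z, y.2.mem hz⟩).2 hz

/-- (a) atoms have no members. -/
theorem not_mem_atom {x y : V} (hy : IsAtom y) : ¬ memV x y := by
  obtain ⟨a, ha⟩ := U.isAt_iff.1 hy
  intro h
  unfold memV at h
  rw [ha] at h
  exact U.not_mem_atom h

/-- (c) every element is fixed by some `sg^(2^k)`. -/
theorem exists_level (x : V) : ∃ k : ℕ, (sg^[2 ^ k]) x = x := by
  obtain ⟨k, hk⟩ := x.2.sym
  exact ⟨k, Subtype.ext (by rw [sg_iterate_val, hk])⟩

/-- (d) every element has a small family of members. -/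
theorem exists_members (x : V) : ∃ (α : Type) (f : α → V), ∀ y, memV y x ↔ ∃ i, f i = y := by
  obtain ⟨x, hx⟩ := x
  rcases U.cases x with ⟨a, rfl⟩ | ⟨α, f, rfl⟩
  · refine ⟨Empty, fun i => i.elim, fun y => iff_of_false U.not_mem_atom ?_⟩
    rintro ⟨i, -⟩
    exact i.elim
  · refine ⟨α, fun i => ⟨f i, hx.mem (U.mem_mk.2 ⟨i, rfl⟩)⟩, fun y => ?_⟩
    refine U.mem_mk.trans (exists_congr fun i => ?_)
    exact ⟨fun h => Subtype.ext h, fun h => congrArg Subtype.val h⟩

theorem iterate_mul_fixed {x : V} {n : ℕ} (h : (sg^[n]) x = x) (m : ℕ) : (sg^[n * m]) x = x := by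
  rw [Function.iterate_mul]
  exact Function.iterate_fixed h m

theorem level_mono {x : V} {k l : ℕ} (h : (sg^[2 ^ k]) x = x) (hkl : k ≤ l) :
    (sg^[2 ^ l]) x = x := by
  obtain ⟨m, rfl⟩ := Nat.exists_eq_add_of_le hkl
  rw [pow_add]
  exact iterate_mul_fixed h _

/-- (e) every family whose range is mapped into itself by some `sg^(2^k)` is the family of
members of a set. -/
theorem exists_set {α : Type} (f : α → V) (k : ℕ) (h : ∀ i, ∃ j, (sg^[2 ^ k]) (f i) = f j) :
    ∃ x, ¬ IsAtom x ∧ ∀ y, memV y x ↔ ∃ i, f i = y := by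
  have hmem : ∀ y, U.Mem y (U.mk α fun i => (f i).1) ↔ ∃ i, (f i).1 = y := fun y => U.mem_mk
  have hit : ∀ (n : ℕ) (x : U Atom), ¬ U.IsAt x → ¬ U.IsAt ((sgU^[n]) x) := by
    intro n x hx
    induction n with
    | zero => exact hx
    | succ n ih =>
      rw [Function.iterate_succ_apply']
      rwa [show sgU = U.aut shift from rfl, U.isAt_aut]
  have hmit : ∀ (n : ℕ) (x y : U Atom), U.Mem ((sgU^[n]) x) ((sgU^[n]) y) ↔ U.Mem x y := by
    intro n x y
    induction n with
    | zero => rfl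
    | succ n ih =>
      rw [Function.iterate_succ_apply', Function.iterate_succ_apply']
      exact (U.mem_aut shift _ _).trans ih
  -- iterating `sg^(2^k)` from `f i` stays in the range, so also backwards
  have hfwd : ∀ (m : ℕ) (i : α), ∃ j, (sg^[2 ^ k * m]) (f i) = f j := by
    intro m
    induction m with
    | zero => exact fun i => ⟨i, by simp⟩
    | succ m ih =>
      intro i
      obtain ⟨j, hj⟩ := ih i
      obtain ⟨j', hj'⟩ := h j
      refine ⟨j', ?_⟩
      rw [Nat.mul_succ, Nat.add_comm, Function.iterate_add_apply, hj, hj']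
  have hbwd : ∀ i : α, ∃ j, (sg^[2 ^ k]) (f j) = f i := by
    intro i
    obtain ⟨l, hl⟩ := exists_level (f i)
    have hl' : (sg^[2 ^ (k + l)]) (f i) = f i := level_mono hl (Nat.le_add_left _ _)
    obtain ⟨j, hj⟩ := hfwd (2 ^ l - 1) i
    refine ⟨j, ?_⟩
    rw [← hj, ← Function.iterate_add_apply]
    have : 2 ^ k + 2 ^ k * (2 ^ l - 1) = 2 ^ (k + l) := by
      have h2 : 1 ≤ 2 ^ l := Nat.one_le_two_pow
      rw [pow_add]
      conv_rhs => rw [show 2 ^ l = 1 + (2 ^ l - 1) by omega]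
      ring
    rw [this, hl']
  have hsym : (sgU^[2 ^ k]) (U.mk α fun i => (f i).1) = U.mk α fun i => (f i).1 := by
    refine U.ext (hit _ _ U.not_isAt_mk) U.not_isAt_mk fun z => ?_
    constructor
    · intro hz
      -- z = sgU^[2^k] w
      obtain ⟨w, rfl⟩ : ∃ w, (sgU^[2 ^ k]) w = z :=
        (sgU.surjective.iterate (2 ^ k)) z
      rw [hmit] at hz
      obtain ⟨i, hi⟩ := (hmem _).1 hz
      obtain ⟨j, hj⟩ := h i
      refine (hmem _).2 ⟨j, ?_⟩
      rw [← hi, ← hj, sg_iterate_val]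
    · intro hz
      obtain ⟨i, hi⟩ := (hmem _).1 hz
      obtain ⟨j, hj⟩ := hbwd i
      rw [← hi, ← hj, sg_iterate_val, hmit]
      exact (hmem _).2 ⟨j, rfl⟩
  refine ⟨⟨U.mk α fun i => (f i).1, HS.intro _ ⟨k, hsym⟩ fun y hy => ?_⟩, U.not_isAt_mk, fun y => ?_⟩
  · obtain ⟨i, hi⟩ := (hmem _).1 hy
    rw [← hi]
    exact (f i).2
  · exact (hmem _).trans (exists_congr fun i => Subtype.ext_iff.symm)

/-- (f) membership is well-founded. -/
theorem mem_wf : WellFounded memV := InvImage.wf Subtype.val U.mem_wf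

theorem hs_atom (a : Atom) : HS (U.atom a) := by
  refine HS.intro _ ⟨a.1, ?_⟩ fun y hy => (U.not_mem_atom hy).elim
  rw [sgU_iterate_atom]
  obtain ⟨m, i⟩ := a
  rw [shift_iterate]
  congr 2
  have : ((2 ^ m : ℕ) : ZMod (2 ^ m)) = 0 := ZMod.natCast_self _
  rw [this, add_zero]

/-- (g) the atoms. -/
def at' (m : ℕ) (i : ZMod (2 ^ m)) : V := ⟨U.atom ⟨m, i⟩, hs_atom _⟩

theorem isAtom_at (m : ℕ) (i : ZMod (2 ^ m)) : IsAtom (at' m i) := trivial

theorem sg_at (m : ℕ) (i : ZMod (2 ^ m)) : sg (at' m i) = at' m (i + 1) := rfl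

theorem sg_iterate_at (n m : ℕ) (i : ZMod (2 ^ m)) : (sg^[n]) (at' m i) = at' m (i + n) := by
  apply Subtype.ext
  rw [sg_iterate_val]
  show (sgU^[n]) (U.atom ⟨m, i⟩) = U.atom ⟨m, i + n⟩
  rw [sgU_iterate_atom, shift_iterate]

theorem at_inj {m m' : ℕ} {i : ZMod (2 ^ m)} {i' : ZMod (2 ^ m')} :
    at' m i = at' m' i' ↔ (⟨m, i⟩ : Atom) = ⟨m', i'⟩ := by
  rw [← U.atom_inj]
  exact Subtype.ext_iff

theorem isAtom_iff {x : V} : IsAtom x ↔ ∃ (m : ℕ) (i : ZMod (2 ^ m)), x = at' m i := by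
  constructor
  · intro h
    obtain ⟨⟨m, i⟩, ha⟩ := U.isAt_iff.1 h
    exact ⟨m, i, Subtype.ext ha⟩
  · rintro ⟨m, i, rfl⟩
    trivial

/-- `at' m i` is fixed by `sg^n` iff `2^m` divides `n`. -/
theorem sg_iterate_at_eq_iff (n m : ℕ) (i : ZMod (2 ^ m)) :
    (sg^[n]) (at' m i) = at' m i ↔ 2 ^ m ∣ n := by
  rw [sg_iterate_at, at_inj]
  constructor
  · intro h
    have h1 : i + (n : ZMod (2 ^ m)) = i := by
      simpa using h
    have h2 : (n : ZMod (2 ^ m)) = 0 := by simpa using h1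
    exact (ZMod.natCast_eq_zero_iff n (2 ^ m)).1 h2
  · intro h
    have h2 : (n : ZMod (2 ^ m)) = 0 := (ZMod.natCast_eq_zero_iff n (2 ^ m)).2 h
    rw [h2, add_zero]

end V

end Pool.Agent.WFZ
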