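import Pool.Agent.Work.MP_831107_lc.Class

/-!
# MP_831107_lc : the eight principles `WF^x_sk` hold in the model and `CSB*` fails
-/

namespace Pool.Agent.WFZ

open Cardinal

open SetStr (mem isAtom)

namespace V

theorem mu_of_empty {X : V} (h : ∀ x, ¬ mem x X) : mu X = 0 := by
  rw [mu, mk_eq_zero_iff]
  exact ⟨fun x => h x.1 x.2⟩

theorem lam_of_empty {X : V} (h : ∀ x, ¬ mem x X) : lam X = 0 := by
  have := lam_le_mu X
  rw [mu_of_empty h] at this
  exact nonpos_iff_eq_zero.1 this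

/-- The classification, also for empty sets. -/
theorem leStar_iff_all (X Y : V) : LeStar X Y ↔ mu X ≤ mu Y ∧ lam X ≤ lam Y := by
  by_cases hX : ∃ x, mem x X
  · exact leStar_iff hX
  · push Not at hX
    refine iff_of_true (Or.inl hX) ?_
    rw [mu_of_empty hX, lam_of_empty hX]
    exact ⟨zero_le, zero_le⟩

/-- Injections do not raise the invariants either. -/
theorem le_of_inj {X Y : V} (h : ∃ f, IsInj f X Y) : mu X ≤ mu Y ∧ lam X ≤ lam Y := by
  obtain ⟨k, F, hF, hinj⟩ := inj_eqvt h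
  constructor
  · refine mk_le_of_injective (f := fun x : {x : V // mem x X} =>
      (⟨F x.1, (hF k le_rfl).maps _ x.2⟩ : {y : V // mem y Y})) ?_
    intro x x' hxx
    exact Subtype.ext (hinj _ _ x.2 x'.2 (congrArg Subtype.val hxx))
  · obtain ⟨J, hJ⟩ := exists_cnt_eq X
    obtain ⟨J', hJ'⟩ := exists_cnt_eq Y
    have key : ∀ j, k < j → cnt X j ≤ cnt Y j := by
      intro j hj
      have hlev : ∀ x : {x : V // mem x X ∧ j ≤ lev x}, j ≤ lev (F x.1) := by
        intro x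
        by_contra hlt
        push Not at hlt
        have h1 : sgk (j - 1) (F x.1) = F x.1 := (τ_fix_iff (j - 1) (F x.1)).2 (by omega)
        have h2 := (hF (j - 1) (by omega)).comm _ x.2.1
        rw [h1] at h2
        have h3 := hinj _ _ (((hF (j - 1) (by omega)).fix_left.mem_iff x.1).2 x.2.1) x.2.1 h2
        have h4 : lev x.1 ≤ j - 1 := (τ_fix_iff _ _).1 h3
        have := x.2.2
        omega
      refine mk_le_of_injective (f := fun x => (⟨F x.1, (hF k le_rfl).maps _ x.2.1, hlev x⟩ :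
        {y : V // mem y Y ∧ j ≤ lev y})) ?_
      intro x x' hxx
      exact Subtype.ext (hinj _ _ x.2.1 x'.2.1 (congrArg Subtype.val hxx))
    let j := max (max J J') (k + 1)
    have h1 : J ≤ j := (le_max_left _ _).trans (le_max_left _ _)
    have h2 : J' ≤ j := (le_max_right _ _).trans (le_max_left _ _)
    have h3 : k < j := lt_of_lt_of_le (Nat.lt_succ_self k) (le_max_right _ _)
    rw [← hJ j h1, ← hJ' j h2]
    exact key j h3

theorem prec_le {x : Ix} {X Y : V} (h : Prec x X Y) : mu X ≤ mu Y ∧ lam X ≤ lam Y := by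
  cases x with
  | i => exact le_of_inj h
  | s => exact (leStar_iff_all X Y).1 h

theorem eqCard_eq {X Y : V} (h : EqCard X Y) : mu X = mu Y ∧ lam X = lam Y := by
  obtain ⟨f, h1, h2⟩ := h
  have h3 := le_of_inj ⟨f, h1⟩
  have h4 := le_of_surj ⟨f, h2⟩
  exact ⟨le_antisymm h3.1 h4.1, le_antisymm h3.2 h4.2⟩

/-- A family of sets has a member with minimal invariants. -/
theorem exists_min {ι : Type*} [hι : Nonempty ι] (A : ι → V) :
    ∃ i, ∀ j, mu (A j) ≤ mu (A i) → lam (A j) ≤ lam (A i) → LeStar (A i) (A j) := by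
  obtain ⟨i0, hi0⟩ : ∃ i, ∀ j, mu (A i) ≤ mu (A j) := by
    obtain ⟨m, ⟨i, rfl⟩, hm⟩ := (wellFounded_lt (α := Cardinal)).has_min
      (Set.range fun i => mu (A i)) (Set.range_nonempty _)
    exact ⟨i, fun j => not_lt.1 (hm _ ⟨j, rfl⟩)⟩
  obtain ⟨m, ⟨i, hi, rfl⟩, hm⟩ := (wellFounded_lt (α := Cardinal)).has_min
    ((fun i => lam (A i)) '' {i | mu (A i) = mu (A i0)}) ⟨_, i0, rfl, rfl⟩
  have hi' : mu (A i) = mu (A i0) := hi
  refine ⟨i, fun j h1 h2 => (leStar_iff_all _ _).2 ?_⟩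
  have h3 : mu (A i) ≤ mu (A j) := by
    rw [hi']
    exact hi0 j
  have h4 : mu (A j) = mu (A i0) := by
    rw [← hi']
    exact le_antisymm h1 h3
  exact ⟨h3, not_lt.1 (hm _ ⟨j, h4, rfl⟩)⟩

theorem wf1 (x : Ix) : WF1 V x Iy.s := by
  intro C hC hcode
  have hne : Nonempty {p : V × V // mem p.1 C ∧ mem p.2 p.1} := by
    obtain ⟨K, hK⟩ := hC
    obtain ⟨X, hX⟩ := (hcode K hK).2.1
    exact ⟨⟨(K, X), hK, hX⟩⟩
  obtain ⟨⟨⟨K, X⟩, hK, hX⟩, hmin⟩ := exists_min
    (fun p : {p : V × V // mem p.1 C ∧ mem p.2 p.1} => p.1.2)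
  refine ⟨K, hK, ?_⟩
  rintro K' hK' ⟨X', Y', hX', hY', hprec⟩
  obtain ⟨h1, h2⟩ := prec_le hprec
  obtain ⟨h3, h4⟩ := eqCard_eq ((hcode K hK).2.2.2 _ _ hY' hX)
  exact ⟨X, X', hX, hX', hmin ⟨(K', X'), hK', hX'⟩ (h1.trans h3.le) (h2.trans h4.le)⟩

theorem wf2 (x : Ix) : WF2 V x Iy.s := by
  intro w s hw hs hcode hprec
  have hK : ∀ n : ℕ, ∃ K, App s (num n) K := fun n =>
    (hs.2.2 (num n) ((isOmega_iff hw _).2 ⟨n, rfl⟩)).exists
  choose K hK using hK
  have hne : Nonempty {p : ℕ × V // mem p.2 (K p.1)} := by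
    obtain ⟨X, hX⟩ := (hcode _ _ (hK 0)).2.1
    exact ⟨⟨(0, X), hX⟩⟩
  obtain ⟨⟨⟨n, X⟩, hX⟩, hmin⟩ := exists_min (fun p : {p : ℕ × V // mem p.2 (K p.1)} => p.1.2)
  have hX0 : mem X (K n) := hX
  obtain ⟨X', Y', hX', hY', hp⟩ := hprec (num n) (num (n + 1)) (K n) (K (n + 1))
    ((isOmega_iff hw _).2 ⟨n, rfl⟩) (num_succ n) (hK n) (hK (n + 1))
  obtain ⟨h1, h2⟩ := prec_le hp
  obtain ⟨h3, h4⟩ := eqCard_eq ((hcode _ _ (hK n)).2.2.2 _ _ hY' hX0)
  exact ⟨num n, num (n + 1), K n, K (n + 1), (isOmega_iff hw _).2 ⟨n, rfl⟩, num_succ n, hK n,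
    hK (n + 1), X, X', hX0, hX', hmin ⟨(n + 1, X'), hX'⟩ (h1.trans h3.le) (h2.trans h4.le)⟩

theorem wf3 (x : Ix) : WF3 V x Iy.s := by
  intro w s hw hs hset hprec
  have hA : ∀ n : ℕ, ∃ A, App s (num n) A := fun n =>
    (hs.2.2 (num n) ((isOmega_iff hw _).2 ⟨n, rfl⟩)).exists
  choose A hA using hA
  obtain ⟨n, hmin⟩ := exists_min A
  obtain ⟨h1, h2⟩ := prec_le (hprec (num n) (num (n + 1)) (A n) (A (n + 1))
    ((isOmega_iff hw _).2 ⟨n, rfl⟩) (num_succ n) (hA n) (hA (n + 1)))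
  exact ⟨num n, num (n + 1), A n, A (n + 1), (isOmega_iff hw _).2 ⟨n, rfl⟩, num_succ n, hA n,
    hA (n + 1), hmin (n + 1) h1 h2⟩

theorem wf4 (x : Ix) : WF4 V x Iy.s := by
  intro w s t hw hs ht hset hmap
  refine wf3 x w s hw hs hset ?_
  intro n m A A' hn hm hA hA'
  obtain ⟨f, hf, -⟩ := ht.2.2 n hn
  have h := hmap n m A A' f hn hm hA hA' hf
  cases x with
  | i => exact ⟨f, h⟩
  | s => exact Or.inr ⟨f, h⟩

theorem lev_at (m : ℕ) (i : ZMod (2 ^ m)) (k : ℕ) : lev (at' m i) ≤ k ↔ m ≤ k := by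
  rw [← τ_fix_iff, Fixed, sgk_apply, sg_iterate_at_eq_iff,
    Nat.pow_dvd_pow_iff_le_right (by norm_num)]

/-- A set of atoms containing all atoms of positive level. -/
theorem invariants_of_atoms {Z : V} (h1 : ∀ x, mem x Z → isAtom x)
    (h2 : ∀ m (i : ZMod (2 ^ (m + 1))), mem (at' (m + 1) i) Z) : mu Z = ℵ₀ ∧ lam Z = ℵ₀ := by
  have hcount : (Set.univ : Set {x : V // mem x Z}).Countable := by
    have h3 : Countable {x : V // mem x Z} := by
      have hsel : ∀ x : {x : V // mem x Z}, ∃ a : Atom, x.1 = at' a.1 a.2 := by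
        intro x
        obtain ⟨m, i, hx⟩ := isAtom_iff.1 (h1 x.1 x.2)
        exact ⟨⟨m, i⟩, hx⟩
      choose c hc using hsel
      have hAt : Countable Atom := by
        unfold Atom
        have : ∀ m : ℕ, Countable (ZMod (2 ^ m)) := fun m => by
          have : NeZero (2 ^ m) := ⟨by positivity⟩
          infer_instance
        infer_instance
      refine Function.Injective.countable (f := c) ?_
      intro x y hxy
      apply Subtype.ext
      rw [hc x, hc y, hxy]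
    exact Set.countable_univ_iff.2 h3
  have hcnt : ∀ j, cnt Z j = ℵ₀ := by
    intro j
    apply le_antisymm
    · have h3 : cnt Z j ≤ mu Z := mk_subtype_mono fun x hx => hx.1
      refine h3.trans ?_
      rw [mu, mk_le_aleph0_iff]
      exact Set.countable_univ_iff.1 hcount
    · rw [cnt, aleph0_le_mk_iff]
      refine Infinite.of_injective (fun n : ℕ => (⟨at' (j + n + 1) 0, h2 _ _, ?_⟩ :
        {x : V // mem x Z ∧ j ≤ lev x})) ?_
      · by_contra hlt
        push Not at hlt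
        have := (lev_at (j + n + 1) 0 (lev (at' (j + n + 1) 0))).1 le_rfl
        omega
      · intro n n' hnn
        have h3 : at' (j + n + 1) 0 = at' (j + n' + 1) 0 := congrArg Subtype.val hnn
        have h4 := congrArg Sigma.fst (at_inj.1 h3)
        simp only at h4
        omega
  constructor
  · apply le_antisymm
    · rw [mu, mk_le_aleph0_iff]
      exact Set.countable_univ_iff.1 hcount
    · rw [← hcnt 0]
      exact mk_subtype_mono fun x hx => hx.1
  · obtain ⟨J, hJ⟩ := exists_cnt_eq Z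
    rw [← hJ J le_rfl, hcnt]

theorem not_csbStar : ¬ CSBstar V := by
  intro hCSB
  obtain ⟨A, hA, hA'⟩ := isZFA.atoms
  let a0 : V := at' 0 0
  have ha0 : isAtom a0 := isAtom_at 0 0
  have hfix0 : ∀ k, sgk k a0 = a0 := fun k =>
    (τ_fix_iff k a0).2 ((lev_at 0 0 k).2 (Nat.zero_le _))
  obtain ⟨B, hB, hB'⟩ := exists_of_small (fun x => isAtom x ∧ x ≠ a0) 0
    (fun x hx => ⟨(isAtom_sgk 0 x).2 hx.1, fun h => hx.2 ((sgk 0).injective
      (h.trans (hfix0 0).symm))⟩)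
    (fun a : Atom => at' a.1 a.2) (fun x hx => by
      obtain ⟨m, i, rfl⟩ := isAtom_iff.1 hx.1
      exact ⟨⟨m, i⟩, rfl⟩)
  have hIA := invariants_of_atoms (Z := A) (fun x hx => (hA' x).1 hx)
    (fun m i => (hA' _).2 (isAtom_at _ _))
  have hIB := invariants_of_atoms (Z := B) (fun x hx => ((hB' x).1 hx).1)
    (fun m i => (hB' _).2 ⟨isAtom_at _ _, fun h => by
      have := congrArg Sigma.fst (at_inj.1 h)
      simp at this⟩)
  have h1 : LeStar A B := (leStar_iff_all _ _).2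
    ⟨by rw [hIA.1, hIB.1], by rw [hIA.2, hIB.2]⟩
  have h2 : LeStar B A := (leStar_iff_all _ _).2
    ⟨by rw [hIA.1, hIB.1], by rw [hIA.2, hIB.2]⟩
  obtain ⟨f, hinj, -⟩ := hCSB A B hA hB h1 h2
  obtain ⟨k, F, hF, hFi⟩ := inj_eqvt ⟨f, hinj⟩
  let S : Set V := {x | isAtom x ∧ sgk k x = x}
  have hfin : S.Finite := by
    refine (Set.finite_iUnion (ι := Fin (k + 1))
      (f := fun m => Set.range (fun i : ZMod (2 ^ (m : ℕ)) => at' (m : ℕ) i)) ?_).subset ?_
    · intro m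
      have : NeZero (2 ^ (m : ℕ)) := ⟨by positivity⟩
      exact Set.finite_range _
    · rintro x ⟨hx, hx'⟩
      obtain ⟨m, i, rfl⟩ := isAtom_iff.1 hx
      have h3 : m ≤ k := (lev_at m i k).1 ((τ_fix_iff k _).1 hx')
      exact Set.mem_iUnion.2 ⟨⟨m, by omega⟩, i, rfl⟩
  have hmaps : ∀ x ∈ S, F x ∈ S \ {a0} := by
    rintro x ⟨hx, hx'⟩
    have hxA : mem x A := (hA' x).2 hx
    have h3 := (hB' _).1 ((hF k le_rfl).maps x hxA)
    refine ⟨⟨h3.1, ?_⟩, h3.2⟩
    rw [← (hF k le_rfl).comm x hxA, hx']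
  have hinjOn : Set.InjOn F S := fun x hx y hy hxy =>
    hFi x y ((hA' x).2 hx.1) ((hA' y).2 hy.1) hxy
  have hle : S.ncard ≤ (S \ {a0}).ncard :=
    Set.ncard_le_ncard_of_injOn F hmaps hinjOn (hfin.subset Set.sdiff_subset)
  have hlt : (S \ {a0}).ncard < S.ncard :=
    Set.ncard_sdiff_singleton_lt_of_mem ⟨ha0, hfix0 k⟩ hfin
  exact absurd hle (not_le.2 hlt)

end V

end Pool.Agent.WFZ
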