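import Pool.Agent.Work.MP_831107_lc.Defs
import Pool.Agent.Work.MP_831107_lc.Univ

/-!
# MP_831107_lc : the permutation model `V` satisfies ZFA
-/

open FirstOrder

namespace Pool.Agent.WFZ

open SetStr (mem isAtom)

/-- The permutation model as a structure for set theory with atoms. -/
instance : SetStr V := ⟨V.memV, V.IsAtom⟩

namespace V

/-- The automorphism `sg^(2^k)`. -/
noncomputable def sgk (k : ℕ) : V ≃ V := (show Equiv.Perm V from sg) ^ (2 ^ k)

theorem sgk_apply (k : ℕ) (x : V) : sgk k x = (sg^[2 ^ k]) x := by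
  rw [sgk, ← Equiv.Perm.iterate_eq_pow]

theorem mem_iterate (n : ℕ) (x y : V) : mem ((sg^[n]) x) ((sg^[n]) y) ↔ mem x y := by
  induction n with
  | zero => rfl
  | succ n ih =>
    rw [Function.iterate_succ_apply', Function.iterate_succ_apply']
    exact (mem_sg _ _).trans ih

theorem isAtom_iterate (n : ℕ) (x : V) : isAtom ((sg^[n]) x) ↔ isAtom x := by
  induction n with
  | zero => rfl
  | succ n ih =>
    rw [Function.iterate_succ_apply']
    exact (isAtom_sg _).trans ih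

theorem mem_sgk (k : ℕ) (x y : V) : mem (sgk k x) (sgk k y) ↔ mem x y := by
  rw [sgk_apply, sgk_apply, mem_iterate]

theorem isAtom_sgk (k : ℕ) (x : V) : isAtom (sgk k x) ↔ isAtom x := by
  rw [sgk_apply, isAtom_iterate]

/-- `sg^(2^k)` as an automorphism of the first order structure. -/
noncomputable def sgL (k : ℕ) : V ≃[Lang] V where
  toEquiv := sgk k
  map_fun' := fun f => (f : Empty).elim
  map_rel' := fun {n} r v => by
    cases r with
    | mem => exact mem_sgk k _ _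
    | atom => exact isAtom_sgk k _

theorem realize_sgk (k : ℕ) {ι : Type} (φ : Lang.Formula ι) (v : ι → V) :
    φ.Realize (fun i => sgk k (v i)) ↔ φ.Realize v :=
  FirstOrder.Language.StrongHomClass.realize_formula (sgL k) φ

/-- `x` is fixed by `sg^(2^k)`. -/
def Fixed (k : ℕ) (x : V) : Prop := sgk k x = x

theorem exists_fixed (x : V) : ∃ k, Fixed k x := by
  obtain ⟨k, hk⟩ := exists_level x
  exact ⟨k, by rw [Fixed, sgk_apply, hk]⟩

theorem Fixed.mono {k l : ℕ} {x : V} (h : Fixed k x) (hkl : k ≤ l) : Fixed l x := by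
  rw [Fixed, sgk_apply] at h ⊢
  exact level_mono h hkl

theorem exists_fixed_fin {n : ℕ} (p : Fin n → V) : ∃ k, ∀ i, Fixed k (p i) := by
  choose k hk using fun i => exists_fixed (p i)
  exact ⟨Finset.univ.sup k, fun i => (hk i).mono (Finset.le_sup (Finset.mem_univ i))⟩

theorem Fixed.mem_iff {k : ℕ} {x : V} (h : Fixed k x) (y : V) : mem (sgk k y) x ↔ mem y x := by
  conv_lhs => rw [← h]
  exact mem_sgk k y x

/-- A class which is small and invariant under some `sg^(2^k)` is a set of the model. -/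
theorem exists_of_small (P : V → Prop) (k : ℕ) (hP : ∀ x, P x → P (sgk k x))
    {α : Type} (f : α → V) (hf : ∀ x, P x → ∃ i, f i = x) :
    ∃ z : V, ¬ isAtom z ∧ ∀ x, mem x z ↔ P x := by
  obtain ⟨z, hz, hz'⟩ := exists_set (fun i : {i : α // P (f i)} => f i.1) k (by
    rintro ⟨i, hi⟩
    obtain ⟨j, hj⟩ := hf _ (hP _ hi)
    refine ⟨⟨j, by rw [hj]; exact hP _ hi⟩, ?_⟩
    show (sg^[2 ^ k]) (f i) = f j
    rw [hj, sgk_apply])
  refine ⟨z, hz, fun x => (hz' x).trans ⟨?_, ?_⟩⟩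
  · rintro ⟨⟨i, hi⟩, rfl⟩
    exact hi
  · intro hx
    obtain ⟨i, hi⟩ := hf x hx
    exact ⟨⟨i, by rw [hi]; exact hx⟩, hi⟩

theorem ext' {x y : V} (hx : ¬ isAtom x) (hy : ¬ isAtom y) (h : ∀ z, mem z x ↔ mem z y) : x = y :=
  ext hx hy h

theorem not_isAtom_of_mem {x y : V} (h : mem x y) : ¬ isAtom y := fun h' => not_mem_atom h' h

theorem exists_empty : ∃ z : V, IsEmp z := by
  obtain ⟨z, hz, hz'⟩ := exists_of_small (fun _ => False) 0 (fun _ h => h)
    (fun i : Empty => i.elim) (fun _ h => h.elim)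
  exact ⟨z, hz, fun x hx => (hz' x).1 hx⟩

theorem exists_pair (x y : V) : ∃ z : V, ¬ isAtom z ∧ ∀ w, mem w z ↔ w = x ∨ w = y := by
  obtain ⟨k, hk⟩ := exists_fixed x
  obtain ⟨l, hl⟩ := exists_fixed y
  refine exists_of_small (fun w => w = x ∨ w = y) (max k l) ?_
    (fun i : Bool => if i then x else y) ?_
  · rintro w (rfl | rfl)
    · exact Or.inl (hk.mono (le_max_left _ _))
    · exact Or.inr (hl.mono (le_max_right _ _))
  · rintro w (rfl | rfl)
    · exact ⟨true, rfl⟩
    · exact ⟨false, rfl⟩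

theorem exists_succ (x : V) : ∃ z : V, ¬ isAtom z ∧ IsSucc z x := by
  obtain ⟨k, hk⟩ := exists_fixed x
  obtain ⟨α, f, hf⟩ := exists_members x
  refine exists_of_small (fun w => mem w x ∨ w = x) k ?_
    (fun i : Option α => i.elim x f) ?_
  · rintro w (h | rfl)
    · exact Or.inl ((hk.mem_iff w).2 h)
    · exact Or.inr hk
  · rintro w (h | rfl)
    · obtain ⟨i, hi⟩ := (hf w).1 h
      exact ⟨some i, hi⟩
    · exact ⟨none, rfl⟩

/-- The von Neumann numerals of the model. -/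
noncomputable def num : ℕ → V
  | 0 => exists_empty.choose
  | n + 1 => (exists_succ (num n)).choose

theorem num_zero : IsEmp (num 0) := exists_empty.choose_spec

theorem num_succ (n : ℕ) : IsSucc (num (n + 1)) (num n) := (exists_succ (num n)).choose_spec.2

theorem isEmp_unique {x y : V} (hx : IsEmp x) (hy : IsEmp y) : x = y :=
  ext' hx.1 hy.1 fun z => iff_of_false (hx.2 z) (hy.2 z)

theorem isSucc_unique {m m' n : V} (h : IsSucc m n) (h' : IsSucc m' n) : m = m' :=
  ext' (not_isAtom_of_mem ((h n).2 (Or.inr rfl))) (not_isAtom_of_mem ((h' n).2 (Or.inr rfl)))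
    fun z => (h z).trans (h' z).symm

theorem isEmp_sgk {k : ℕ} {x : V} (h : IsEmp x) : IsEmp (sgk k x) := by
  refine ⟨fun h' => h.1 ((isAtom_sgk k x).1 h'), fun y hy => ?_⟩
  obtain ⟨z, rfl⟩ := (sgk k).surjective y
  exact h.2 z ((mem_sgk k z x).1 hy)

theorem isSucc_sgk {k : ℕ} {m n : V} (h : IsSucc m n) : IsSucc (sgk k m) (sgk k n) := by
  intro w
  obtain ⟨z, rfl⟩ := (sgk k).surjective w
  rw [mem_sgk, mem_sgk, h z, (sgk k).injective.eq_iff]

theorem num_fixed (k n : ℕ) : sgk k (num n) = num n := by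
  induction n with
  | zero => exact isEmp_unique (isEmp_sgk num_zero) num_zero
  | succ n ih =>
    refine isSucc_unique (n := num n) ?_ (num_succ n)
    have := isSucc_sgk (k := k) (num_succ n)
    rwa [ih] at this

theorem exists_omega : ∃ w : V, ¬ isAtom w ∧ IsOmega w ∧ ∀ x, mem x w ↔ ∃ n, num n = x := by
  obtain ⟨w, hw, hw'⟩ := exists_of_small (fun x => ∃ n, num n = x) 0
    (by rintro x ⟨n, rfl⟩; exact ⟨n, (num_fixed 0 n).symm⟩) num (fun _ h => h)
  refine ⟨w, hw, ⟨⟨⟨num 0, num_zero, (hw' _).2 ⟨0, rfl⟩⟩, ?_⟩, ?_⟩, hw'⟩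
  · intro n hn
    obtain ⟨n, rfl⟩ := (hw' _).1 hn
    exact ⟨num (n + 1), (hw' _).2 ⟨n + 1, rfl⟩, num_succ n⟩
  · rintro z ⟨⟨e, he, hez⟩, hz⟩ n hn
    obtain ⟨n, rfl⟩ := (hw' _).1 hn
    induction n with
    | zero => rwa [isEmp_unique num_zero he]
    | succ n ih =>
      obtain ⟨m, hm, hm'⟩ := hz _ (ih ((hw' _).2 ⟨n, rfl⟩))
      rwa [isSucc_unique (num_succ n) hm']

theorem isOmega_iff {w : V} (h : IsOmega w) (x : V) : mem x w ↔ ∃ n, num n = x := by
  obtain ⟨w', -, hw', hw''⟩ := exists_omega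
  rw [← hw'' x]
  exact ⟨h.2 w' hw'.1 x, hw'.2 w h.1 x⟩

/-- The permutation model satisfies the axioms of ZFA. -/
theorem isZFA : IsZFA V where
  ext := fun x y hx hy h => ext' hx hy h
  atom_empty := fun a x ha => not_mem_atom ha
  atoms := by
    refine exists_of_small (fun x => isAtom x) 0 (fun x h => (isAtom_sgk 0 x).2 h)
      (fun a : Atom => at' a.1 a.2) fun x hx => ?_
    obtain ⟨m, i, rfl⟩ := isAtom_iff.1 hx
    exact ⟨⟨m, i⟩, rfl⟩
  empty := exists_empty
  pairing := exists_pair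
  union := fun x => by
    obtain ⟨k, hk⟩ := exists_fixed x
    obtain ⟨α, f, hf⟩ := exists_members x
    choose β g hg using exists_members
    refine exists_of_small (fun w => ∃ y, mem y x ∧ mem w y) k ?_
      (fun i : Σ a : α, β (f a) => g (f i.1) i.2) ?_
    · rintro w ⟨y, hy, hw⟩
      exact ⟨sgk k y, (hk.mem_iff y).2 hy, (mem_sgk k w y).2 hw⟩
    · rintro w ⟨y, hy, hw⟩
      obtain ⟨i, rfl⟩ := (hf y).1 hy
      obtain ⟨j, hj⟩ := (hg (f i) w).1 hw
      exact ⟨⟨i, j⟩, hj⟩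
  power := fun x => by
    obtain ⟨k, hk⟩ := exists_fixed x
    obtain ⟨α, f, hf⟩ := exists_members x
    have hne : ∀ S : Set α, ∃ w : V, (∃ w' : V, ¬ isAtom w' ∧ ∀ v, mem v w' ↔ ∃ i ∈ S, f i = v) →
        (¬ isAtom w ∧ ∀ v, mem v w ↔ ∃ i ∈ S, f i = v) := by
      intro S
      by_cases h : ∃ w' : V, ¬ isAtom w' ∧ ∀ v, mem v w' ↔ ∃ i ∈ S, f i = v
      · exact ⟨h.choose, fun _ => h.choose_spec⟩
      · exact ⟨x, fun h' => (h h').elim⟩
    choose g hg using hne
    refine exists_of_small (fun w => ¬ isAtom w ∧ ∀ v, mem v w → mem v x) k ?_ g ?_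
    · rintro w ⟨hw, hw'⟩
      refine ⟨fun h => hw ((isAtom_sgk k w).1 h), fun v hv => ?_⟩
      obtain ⟨u, rfl⟩ := (sgk k).surjective v
      exact (hk.mem_iff u).2 (hw' u ((mem_sgk k u w).1 hv))
    · rintro w ⟨hw, hw'⟩
      refine ⟨{i | mem (f i) w}, ?_⟩
      have h1 : ∀ v, mem v w ↔ ∃ i ∈ {i | mem (f i) w}, f i = v := by
        intro v
        constructor
        · intro hv
          obtain ⟨i, rfl⟩ := (hf v).1 (hw' v hv)
          exact ⟨i, hv, rfl⟩
        · rintro ⟨i, hi, rfl⟩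
          exact hi
      obtain ⟨h2, h3⟩ := hg {i | mem (f i) w} ⟨w, hw, h1⟩
      exact ext' h2 hw fun v => (h3 v).trans (h1 v).symm
  infinity := by
    obtain ⟨w, hw, hw', -⟩ := exists_omega
    exact ⟨w, hw, hw'⟩
  foundation := fun x hx => by
    obtain ⟨y, hy, hy'⟩ := mem_wf.has_min {y | mem y x} hx
    exact ⟨y, hy, fun z hz => hy' z hz⟩
  separation := fun {n} φ p x => by
    obtain ⟨k, hk⟩ := exists_fixed x
    obtain ⟨l, hl⟩ := exists_fixed_fin p
    obtain ⟨α, f, hf⟩ := exists_members x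
    refine exists_of_small
      (fun w => mem w x ∧ φ.Realize (Fin.cons w p : Fin (n + 1) → V)) (max k l) ?_ f
      (fun w hw => (hf w).1 hw.1)
    rintro w ⟨hw, hφ⟩
    refine ⟨((hk.mono (le_max_left _ _)).mem_iff w).2 hw, ?_⟩
    rw [← realize_sgk (max k l) φ] at hφ
    convert hφ using 1
    funext i
    refine Fin.cases ?_ (fun i => ?_) i
    · rfl
    · exact ((hl i).mono (le_max_right _ _)).symm
  replacement := fun {n} φ p x hfun => by
    obtain ⟨k, hk⟩ := exists_fixed x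
    obtain ⟨l, hl⟩ := exists_fixed_fin p
    obtain ⟨α, f, hf⟩ := exists_members x
    have hne : ∀ i : α, ∃ v : V,
        (∃ v' : V, φ.Realize (Fin.cons (f i) (Fin.cons v' p) : Fin (n + 2) → V)) →
        φ.Realize (Fin.cons (f i) (Fin.cons v p) : Fin (n + 2) → V) := by
      intro i
      by_cases h : ∃ v' : V, φ.Realize (Fin.cons (f i) (Fin.cons v' p) : Fin (n + 2) → V)
      · exact ⟨h.choose, fun _ => h.choose_spec⟩
      · exact ⟨x, fun h' => (h h').elim⟩
    choose g hg using hne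
    refine exists_of_small
      (fun v => ∃ w, mem w x ∧ φ.Realize (Fin.cons w (Fin.cons v p) : Fin (n + 2) → V))
      (max k l) ?_ g ?_
    · rintro v ⟨w, hw, hφ⟩
      refine ⟨sgk (max k l) w, ((hk.mono (le_max_left _ _)).mem_iff w).2 hw, ?_⟩
      rw [← realize_sgk (max k l) φ] at hφ
      convert hφ using 1
      funext i
      refine Fin.cases ?_ (fun i => ?_) i
      · rfl
      · refine Fin.cases ?_ (fun i => ?_) i
        · rfl
        · exact ((hl i).mono (le_max_right _ _)).symm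
    · rintro v ⟨w, hw, hφ⟩
      obtain ⟨i, rfl⟩ := (hf w).1 hw
      exact ⟨i, hfun (f i) _ _ hw (hg i ⟨v, hφ⟩) hφ⟩

end V

end Pool.Agent.WFZ
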